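import Pool.Agent.W218.OG.Pat

/-!
The theorem on finite patterns up to a bounded error (`Pool.Agent.W218.OG.Ab.hausdorff`, the same proof)
in a form which uses clusters only for a number of cells bounded by a function of the size of the pattern.
-/

set_option autoImplicit false

namespace Pool.Agent.V5helper70.CC

open Finset Pool.Agent.H732R3.Haus
open Pool.Agent.W218.OG.Ab (Trans St merge)

/-- clusters of `m` elements in an eighth of `W` prescribed cells, nothing else -/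
def ClusW (Pat : Finset ℤ → ℕ → Prop) (m W : ℕ) : Prop := ∃ Q : ℕ, 1 ≤ Q ∧
    ∀ (pos : Fin W → ℤ) (R : ℕ), ∃ (P : Finset ℤ) (A : Finset (Fin W)), W ≤ 8 * A.card ∧
      (∀ g ∈ A, m ≤ (P.filter (fun y => (Q : ℤ) * pos g ≤ y ∧ y < Q * pos g + Q)).card) ∧
      (∀ y ∈ P, ∃ g, (Q : ℤ) * pos g ≤ y ∧ y < Q * pos g + Q) ∧ Pat P R

theorem step (k : ℕ) : ∃ W : ℕ, 1 ≤ W ∧ ∀ {Pat : Finset ℤ → ℕ → Prop}, Trans Pat → ∀ m : ℕ, ClusW Pat m W →
    (k = 0 ∨ St Pat m k) → St Pat m (k + 1) := by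
  classical
  obtain ⟨n, hn⟩ := dhj_eighth k
  refine ⟨(k + 1) ^ n, Nat.one_le_pow _ _ (Nat.succ_pos _), fun {Pat} hT m hCl hk => ?_⟩
  obtain ⟨C0, hC0⟩ : ∃ C0 : ℕ, k = 0 ∨ ∀ (v : Fin k → ℤ) (R : ℕ), ∃ H : Finset ℤ, Near C0 m v H ∧
      Pat H R := by
    rcases hk with h | ⟨C, hC⟩
    · exact ⟨0, Or.inl h⟩
    · exact ⟨C, Or.inr hC⟩
  by_contra hcon
  have hcon' : ∀ C : ℕ, ∃ (v : Fin (k + 1) → ℤ) (R : ℕ), ∀ H : Finset ℤ, Near C m v H →
      ¬ Pat H R := by
    intro C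
    by_contra h
    apply hcon
    refine ⟨C, fun v R => ?_⟩
    by_contra h2
    apply h
    exact ⟨v, R, fun H hH hI => h2 ⟨H, hH, hI⟩⟩
  choose vB RB hB using hcon'
  have hsep : ∀ G : ℕ, ∀ i i' : Fin (k + 1), i ≠ i' →
      (G : ℤ) < |vB (C0 + G) i - vB (C0 + G) i'| := by
    intro G i i' hne
    by_contra h
    rcases hC0 with h0 | h0
    · subst h0
      exact hne (Fin.ext (by omega))
    · obtain ⟨H, hH, hI⟩ := merge h0 (vB (C0 + G)) (RB (C0 + G)) hne (not_lt.1 h)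
      exact hB _ H hH hI
  obtain ⟨Q, hQ1, hcl⟩ := hCl
  have hQ0 : (0 : ℤ) < Q := by exact_mod_cast hQ1
  obtain ⟨nrm, hnrm⟩ : ∃ nrm : (Fin (k + 1) → ℤ) → ℕ, nrm = fun v => ∑ i, (v i).natAbs := ⟨_, rfl⟩
  have hnrm1 : ∀ (v : Fin (k + 1) → ℤ) i, |v i| ≤ nrm v := by
    intro v i
    have h1 : (v i).natAbs ≤ ∑ i, (v i).natAbs :=
      single_le_sum (f := fun i => (v i).natAbs) (fun _ _ => Nat.zero_le _) (mem_univ i)
    rw [Int.abs_eq_natAbs, hnrm]
    exact_mod_cast h1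
  obtain ⟨G, hG0, hGs⟩ : ∃ G : ℕ → ℕ, G 0 = Q ∧
      ∀ j, G (j + 1) = G j + 2 * nrm (vB (C0 + G j)) + RB (C0 + G j) :=
    ⟨fun j => Nat.rec Q (fun _ g => g + 2 * nrm (vB (C0 + g)) + RB (C0 + g)) j, rfl, fun _ => rfl⟩
  obtain ⟨v, hv⟩ : ∃ v : ℕ → Fin (k + 1) → ℤ, v = fun j => vB (C0 + G j) := ⟨_, rfl⟩
  obtain ⟨R, hR⟩ : ∃ R : ℕ → ℕ, R = fun j => RB (C0 + G j) := ⟨_, rfl⟩
  have hGsum : ∀ j, G j = Q + ∑ i ∈ range j, (2 * nrm (v i) + R i) := by
    intro j
    induction j with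
    | zero => simp [hG0]
    | succ j ih =>
      rw [hGs, sum_range_succ, hv, hR]
      rw [hv, hR] at ih
      simp only at ih ⊢
      omega
  have hvsep : ∀ j, ∀ i i' : Fin (k + 1), i ≠ i' → (G j : ℤ) < |v j i - v j i'| := by
    intro j i i' hne
    rw [hv]
    exact hsep (G j) i i' hne
  obtain ⟨N, hN⟩ : ∃ N : ℕ → ℕ, N = fun j => ∑ i ∈ range j, nrm (v i) := ⟨_, rfl⟩
  have hGN : ∀ j, G j = Q + 2 * N j + ∑ i ∈ range j, R i := by
    intro j
    rw [hGsum, hN, sum_add_distrib, ← mul_sum]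
    ring
  -- words
  obtain ⟨X, hX⟩ : ∃ X : (Fin n → Fin (k + 1)) → ℕ → ℤ,
    X = fun w j => if hj : j < n then v j (w ⟨j, hj⟩) else 0 := ⟨_, rfl⟩
  have hX1 : ∀ w (j : ℕ) (hj : j < n), X w j = v j (w ⟨j, hj⟩) := by
    intro w j hj
    rw [hX]
    simp only [dif_pos hj]
  have hXb : ∀ w (j : ℕ), |X w j| ≤ nrm (v j) := by
    intro w j
    by_cases hj : j < n
    · rw [hX1 w j hj]; exact hnrm1 _ _
    · rw [hX]; simp only [dif_neg hj, abs_zero]; positivity
  have hXs : ∀ w (S : Finset ℕ) (j : ℕ), S ⊆ range j → |∑ i ∈ S, X w i| ≤ N j := by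
    intro w S j hS
    calc |∑ i ∈ S, X w i| ≤ ∑ i ∈ S, |X w i| := abs_sum_le_sum_abs _ _
      _ ≤ ∑ i ∈ S, (nrm (v i) : ℤ) := sum_le_sum fun i _ => hXb w i
      _ ≤ ∑ i ∈ range j, (nrm (v i) : ℤ) :=
          sum_le_sum_of_subset_of_nonneg hS fun _ _ _ => by positivity
      _ = N j := by rw [hN]; push_cast; rfl
  obtain ⟨s, hs⟩ : ∃ s : (Fin n → Fin (k + 1)) → ℤ, s = fun w => ∑ j ∈ range n, X w j := ⟨_, rfl⟩
  let e : (Fin n → Fin (k + 1)) ≃ Fin ((k + 1) ^ n) := finFunctionFinEquiv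
  obtain ⟨P, A, hA, hAm, hPc, hE⟩ := hcl (fun g => s (e.symm g) / Q) (G n)
  obtain ⟨L, hL⟩ := hn (A.map e.symm.toEmbedding) (by rw [card_map]; exact hA)
  have hLS : ∀ i, e (L i) ∈ A := by
    intro i
    have := hL i
    rw [mem_map] at this
    obtain ⟨g, hg, hgi⟩ := this
    have h2 : e (L i) = g := by
      rw [← hgi]
      simp
    rw [h2]; exact hg
  have hclose : ∀ w (y : ℤ), (Q : ℤ) * (s w / Q) ≤ y ∧ y < Q * (s w / Q) + Q → |y - s w| ≤ Q := by
    intro w y h1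
    have h2 := Int.emod_add_mul_ediv (s w) Q
    have h3 := Int.emod_nonneg (s w) hQ0.ne'
    have h4 := Int.emod_lt_of_pos (s w) hQ0
    rw [abs_le]
    constructor <;> linarith [h1.1, h1.2]
  set J : Finset (Fin n) := univ.filter (fun j => L.idxFun j = none) with hJ
  have hJne : J.Nonempty := by
    obtain ⟨j, hj⟩ := L.proper
    exact ⟨j, by simp [hJ, hj]⟩
  obtain ⟨jf, hjf1, hjf2⟩ : ∃ jf : Fin n, L.idxFun jf = none ∧
      ∀ j : Fin n, jf < j → ∃ y, L.idxFun j = some y := by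
    refine ⟨J.max' hJne, (mem_filter.1 (J.max'_mem hJne)).2, fun j hj => ?_⟩
    apply Option.ne_none_iff_exists'.1
    intro h
    have : j ≤ J.max' hJne := J.le_max' j (by simp [hJ, h])
    exact absurd hj (not_lt.2 this)
  obtain ⟨js, hjs⟩ := jf
  have hact : ∀ i, L i ⟨js, hjs⟩ = i := fun i => Combinatorics.Line.apply_none _ _ _ hjf1
  have hfix : ∀ (j : ℕ) (hj : j < n), js < j → ∀ i, L i ⟨j, hj⟩ = L 0 ⟨j, hj⟩ := by
    intro j hj hlt i
    obtain ⟨y, hy⟩ := hjf2 ⟨j, hj⟩ hlt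
    rw [Combinatorics.Line.apply_some hy, Combinatorics.Line.apply_some hy]
  set U := X (L 0) with hU
  set t : ℤ := ∑ j ∈ Ico (js + 1) n, U j with ht
  let agree : (Fin n → Fin (k + 1)) → Prop := fun w =>
    ∀ (j : ℕ) (hj : j < n), js < j → w ⟨j, hj⟩ = L 0 ⟨j, hj⟩
  have hB1 : ∀ w, agree w → |s w - t - v js (w ⟨js, hjs⟩)| ≤ N js := by
    intro w hw
    have h1 : s w = ∑ j ∈ range js, X w j + X w js + ∑ j ∈ Ico (js + 1) n, X w j := by
      rw [hs, ← sum_range_succ]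
      exact (sum_range_add_sum_Ico _ (by omega)).symm
    have h2 : ∑ j ∈ Ico (js + 1) n, X w j = t := by
      rw [ht]
      apply sum_congr rfl
      intro j hj
      have h3 := mem_Ico.1 hj
      rw [hU, hX1 w j h3.2, hX1 _ j h3.2, hw j h3.2 (by omega)]
    rw [h1, h2, hX1 w js hjs]
    have h3 := hXs w (range js) js (Subset.refl _)
    calc |∑ j ∈ range js, X w j + v js (w ⟨js, hjs⟩) + t - t - v js (w ⟨js, hjs⟩)|
        = |∑ j ∈ range js, X w j| := by ring_nf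
      _ ≤ N js := h3
  have hB2 : ∀ w, ¬ agree w → ((R js + Q : ℕ) : ℤ) < |s w - t| := by
    intro w hw
    let D : Finset ℕ := (range n).filter (fun j => ∃ hj : j < n, js < j ∧ w ⟨j, hj⟩ ≠ L 0 ⟨j, hj⟩)
    have hDne : D.Nonempty := by
      by_contra h
      apply hw
      intro j hj hlt
      by_contra h2
      apply h
      exact ⟨j, mem_filter.2 ⟨mem_range.2 hj, hj, hlt, h2⟩⟩
    obtain ⟨j', hj'1, hj'2⟩ : ∃ j' ∈ D, ∀ j ∈ D, j ≤ j' :=
      ⟨D.max' hDne, D.max'_mem hDne, fun j hj => D.le_max' j hj⟩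
    obtain ⟨-, hj'n, hj's, hj'ne⟩ := mem_filter.1 hj'1
    have h1 : s w = ∑ j ∈ range j', X w j + X w j' + ∑ j ∈ Ico (j' + 1) n, X w j := by
      rw [hs, ← sum_range_succ]
      exact (sum_range_add_sum_Ico _ (by omega)).symm
    have h2 : t = ∑ j ∈ Ico (js + 1) j', U j + U j' + ∑ j ∈ Ico (j' + 1) n, U j := by
      rw [ht, ← sum_Ico_succ_top (by omega)]
      exact (sum_Ico_consecutive _ (by omega) (by omega)).symm
    have h3 : ∑ j ∈ Ico (j' + 1) n, X w j = ∑ j ∈ Ico (j' + 1) n, U j := by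
      apply sum_congr rfl
      intro j hj
      have h4 := mem_Ico.1 hj
      rw [hU, hX1 w j h4.2, hX1 _ j h4.2]
      congr 1
      by_contra h5
      have h6 := hj'2 j (mem_filter.2 ⟨mem_range.2 h4.2, h4.2, by omega, h5⟩)
      omega
    have h4 := hXs w (range j') j' (Subset.refl _)
    have h5 := hXs (L 0) (Ico (js + 1) j') j' (fun x hx => mem_range.2 (mem_Ico.1 hx).2)
    rw [← hU] at h5
    have h6 : (G j' : ℤ) < |X w j' - U j'| := by
      rw [hU, hX1 w j' hj'n, hX1 _ j' hj'n]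
      exact hvsep j' _ _ hj'ne
    have h7 : Q + 2 * N j' + R js ≤ G j' := by
      rw [hGN]
      have : R js ≤ ∑ i ∈ range j', R i :=
        single_le_sum (f := R) (fun _ _ => Nat.zero_le _) (mem_range.2 hj's)
      omega
    have h8 : X w j' - U j' = (s w - t) - (∑ j ∈ range j', X w j) + ∑ j ∈ Ico (js + 1) j', U j := by
      rw [h1, h2, h3]; ring
    have h9 : |X w j' - U j'| ≤ |s w - t| + N j' + N j' := by
      rw [h8]
      calc |(s w - t) - (∑ j ∈ range j', X w j) + ∑ j ∈ Ico (js + 1) j', U j|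
          ≤ |(s w - t) - (∑ j ∈ range j', X w j)| + |∑ j ∈ Ico (js + 1) j', U j| := abs_add_le _ _
        _ ≤ (|s w - t| + |∑ j ∈ range j', X w j|) + |∑ j ∈ Ico (js + 1) j', U j| := by
            gcongr
            exact abs_sub _ _
        _ ≤ _ := by linarith
    have h10 : ((Q + 2 * N j' + R js : ℕ) : ℤ) ≤ G j' := by exact_mod_cast h7
    push_cast at h10 ⊢
    linarith
  have htb : |t| + R js ≤ G n := by
    have h1 := hXs (L 0) (Ico (js + 1) n) n (fun x hx => mem_range.2 (mem_Ico.1 hx).2)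
    have h2 : Q + 2 * N n + R js ≤ G n := by
      rw [hGN]
      have : R js ≤ ∑ i ∈ range n, R i :=
        single_le_sum (f := R) (fun _ _ => Nat.zero_le _) (mem_range.2 hjs)
      omega
    have h3 : ((Q + 2 * N n + R js : ℕ) : ℤ) ≤ G n := by exact_mod_cast h2
    push_cast at h3
    have h4 : |t| ≤ N n := h1
    have h5 : (0 : ℤ) ≤ N n := by positivity
    linarith
  have hNG : ((Q + N js : ℕ) : ℤ) ≤ ((C0 + G js : ℕ) : ℤ) := by
    have := hGN js
    exact_mod_cast (by omega : Q + N js ≤ C0 + G js)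
  set inc : (Fin n → Fin (k + 1)) → ℤ → Prop := fun w y =>
    (Q : ℤ) * (s w / Q) ≤ y ∧ y < Q * (s w / Q) + Q with hinc
  set H : Finset ℤ := (P.filter (fun y => ∃ w, agree w ∧ inc w y)).image (fun y => y - t) with hH
  have hnear : ∀ w y, agree w → inc w y → |y - t - v js (w ⟨js, hjs⟩)| ≤ ((C0 + G js : ℕ) : ℤ) := by
    intro w y hw hy
    have h1 := hB1 w hw
    have h2 := hclose w y hy
    refine le_trans ?_ hNG
    push_cast
    calc |y - t - v js (w ⟨js, hjs⟩)| = |(y - s w) + (s w - t - v js (w ⟨js, hjs⟩))| := by ring_nf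
      _ ≤ |y - s w| + |s w - t - v js (w ⟨js, hjs⟩)| := abs_add_le _ _
      _ ≤ Q + N js := by linarith
  have hHnear : Near (C0 + G js) m (v js) H := by
    constructor
    · intro i
      have h1 := hAm (e (L i)) (hLS i)
      rw [Equiv.symm_apply_apply] at h1
      refine h1.trans ?_
      apply card_le_card_of_injOn (fun y => y - t)
      · intro y hy
        rw [mem_coe, mem_filter] at hy
        have hag : agree (L i) := fun j hj hlt => hfix j hj hlt i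
        rw [mem_coe, mem_filter]
        refine ⟨mem_image.2 ⟨y, mem_filter.2 ⟨hy.1, L i, hag, hy.2⟩, rfl⟩, ?_⟩
        have h2 := hnear (L i) y hag hy.2
        rw [hact i] at h2
        exact h2
      · intro a _ b _ h
        simp only at h
        linarith
    · intro h hh
      obtain ⟨y, hy, rfl⟩ := mem_image.1 hh
      obtain ⟨-, w, hw, hyw⟩ := mem_filter.1 hy
      exact ⟨_, hnear w y hw hyw⟩
  have hHE : Pat H (R js) := by
    refine hT P H (G n) (R js) t hE htb fun y hy => ?_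
    constructor
    · intro h4
      obtain ⟨g, hg⟩ := hPc _ h4
      set w := e.symm g with hw
      have hag : agree w := by
        by_contra hna
        have h5 := hB2 w hna
        have h6 := hclose w (t + y) hg
        have h7 : |s w - t| ≤ Q + |y| := by
          calc |s w - t| = |-(t + y - s w) + y| := by ring_nf
            _ ≤ |-(t + y - s w)| + |y| := abs_add_le _ _
            _ = |t + y - s w| + |y| := by rw [abs_neg]
            _ ≤ Q + |y| := by linarith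
        push_cast at h5
        linarith
      exact mem_image.2 ⟨t + y, mem_filter.2 ⟨h4, w, hag, hg⟩, by ring⟩
    · intro h4
      obtain ⟨z, hz, hzy⟩ := mem_image.1 h4
      have : t + y = z := by linarith
      rw [this]
      exact (mem_filter.1 hz).1
  have hfin := hB (C0 + G js) H (by
    have h1 : vB (C0 + G js) = v js := by rw [hv]
    rw [h1]; exact hHnear)
  apply hfin
  have h1 : RB (C0 + G js) = R js := by rw [hR]
  rw [h1]; exact hHE

theorem st : ∀ k : ℕ, ∃ W₀ : ℕ, ∀ {Pat : Finset ℤ → ℕ → Prop}, Trans Pat → ∀ m : ℕ,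
    (∀ W, 1 ≤ W → W ≤ W₀ → ClusW Pat m W) → St Pat m (k + 1)
  | 0 => by
    obtain ⟨W, hW1, hW⟩ := step 0
    exact ⟨W, fun {Pat} hT m hCl => hW hT m (hCl W hW1 le_rfl) (Or.inl rfl)⟩
  | k + 1 => by
    obtain ⟨W, hW1, hW⟩ := step (k + 1)
    obtain ⟨W', hW'⟩ := st k
    exact ⟨max W W', fun {Pat} hT m hCl => hW hT m (hCl W hW1 (le_max_left _ _))
      (Or.inr (hW' hT m fun W'' h1 h => hCl W'' h1 (h.trans (le_max_right _ _))))⟩

/-- Up to a bounded error the primes follow every finite pattern, in arbitrarily long intervals. -/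
theorem hausdorff (k : ℕ) : ∃ W₀ : ℕ, ∀ {Pat : Finset ℤ → ℕ → Prop}, Trans Pat → ∀ m : ℕ,
    (∀ W, 1 ≤ W → W ≤ W₀ → ClusW Pat m W) → ∃ C : ℕ, ∀ V : Finset ℤ, V.Nonempty → V.card ≤ k →
    ∃ H : Finset ℤ, (∀ x ∈ V, m ≤ (H.filter (fun h => |h - x| ≤ C)).card) ∧
      (∀ h ∈ H, ∃ x ∈ V, |h - x| ≤ C) ∧ ∀ R : ℕ, Pat H R := by
  classical
  obtain ⟨W₀, hW₀⟩ := st k
  refine ⟨W₀, fun {Pat} hT m hCl => ?_⟩
  obtain ⟨C, hC⟩ := hW₀ hT m hCl
  refine ⟨C, fun V hVne hVk => ?_⟩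
  obtain ⟨x0, hx0⟩ := hVne
  -- enumeration of V
  obtain ⟨v, hv⟩ : ∃ v : Fin (k + 1) → ℤ, ∀ x, x ∈ V ↔ ∃ i, v i = x := by
    let ev : V ≃ Fin V.card := V.equivFin
    refine ⟨fun i => if h : (i : ℕ) < V.card then (ev.symm ⟨i, h⟩ : ℤ) else x0, fun x => ?_⟩
    constructor
    · intro hx
      refine ⟨⟨(ev ⟨x, hx⟩ : ℕ), by have := (ev ⟨x, hx⟩).2; omega⟩, ?_⟩
      have h1 : ((ev ⟨x, hx⟩ : Fin V.card) : ℕ) < V.card := (ev ⟨x, hx⟩).2
      simp only [dif_pos h1]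
      simp
    · rintro ⟨i, rfl⟩
      simp only
      split_ifs with h
      · exact (ev.symm ⟨i, h⟩).2
      · exact hx0
  choose H hH1 hH2 using hC v
  set B : Finset ℤ := univ.biUnion (fun i => Icc (v i - C) (v i + C)) with hB
  have hHB : ∀ R, H R ∈ B.powerset := by
    intro R
    rw [mem_powerset]
    intro h hh
    obtain ⟨i, hi⟩ := (hH1 R).2 h hh
    rw [hB, mem_biUnion]
    refine ⟨i, mem_univ _, ?_⟩
    rw [mem_Icc]
    have := abs_le.1 hi
    constructor <;> linarith [this.1, this.2]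
  let f : ℕ → {P // P ∈ B.powerset} := fun R => ⟨H R, hHB R⟩
  obtain ⟨y, hy⟩ := Finite.exists_infinite_fiber f
  have hy' : (f ⁻¹' {y}).Infinite := Set.infinite_coe_iff.1 hy
  obtain ⟨R0, hR0⟩ := hy'.nonempty
  refine ⟨H R0, fun x hx => ?_, fun h hh => ?_, fun R => ?_⟩
  · obtain ⟨i, rfl⟩ := (hv x).1 hx
    exact (hH1 R0).1 i
  · obtain ⟨i, hi⟩ := (hH1 R0).2 h hh
    exact ⟨v i, (hv _).2 ⟨i, rfl⟩, hi⟩
  · obtain ⟨R', hR', hlt⟩ := hy'.exists_gt R
    have h1 : f R' = f R0 := by rw [hR', hR0]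
    have h2 : H R' = H R0 := congrArg (fun z => z.1) h1
    have h3 := hH2 R'
    rw [h2] at h3
    exact hT _ _ R' R 0 h3 (by rw [abs_zero, zero_add]; exact_mod_cast hlt.le) fun y _ => by
      rw [zero_add]

end Pool.Agent.V5helper70.CC
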