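import Mathlib
import Pool.Agent.Y827.RO.NarF

/-!
# Many elements at almost all scales of an ultrafilter, and classes of linear forms

`Bg 𝒰 B F`: for the `𝒰`-almost all `N` there are at least `N / (D (log N) ^ B)` elements of `F` in
`[N, D N]`, for some `D`. The theorem on classes of linear forms (`Pool.Agent.Y827.RO.lamRD`) holds at all
large scales, with constant terms as large as the variable, hence for `Bg` and every ultrafilter.
-/

set_option autoImplicit false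

namespace Pool.Agent.V5helper70.CC

open Finset Filter
open Pool.Agent.Y827.GS (cntN Adf)

/-- many elements of `F` at almost all scales -/
def Bg (𝒰 : Ultrafilter ℕ) (B : ℕ) (F : Set ℕ) : Prop :=
  ∃ D : ℕ, ∀ᶠ N : ℕ in (𝒰 : Filter ℕ),
    (N : ℝ) ≤ D * (Real.log N) ^ B * ({n : ℕ | n ∈ F ∧ N ≤ n ∧ n ≤ D * N}.ncard : ℝ)

theorem fin_win (F : Set ℕ) (D N : ℕ) : {n : ℕ | n ∈ F ∧ N ≤ n ∧ n ≤ D * N}.Finite :=
  (Set.finite_Iic (D * N)).subset fun _ h => h.2.2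

/-- the general principle of comparison -/
theorem Bg.of {𝒰 : Ultrafilter ℕ} {B E : ℕ} {F G : Set ℕ} (h𝒰 : (𝒰 : Filter ℕ) ≤ atTop)
    (hF : Bg 𝒰 B F) (f : ℕ → ℕ) (n₀ : ℕ) (hinj : Set.InjOn f {n | n₀ ≤ n})
    (hf1 : ∀ n, n₀ ≤ n → n ≤ f n) (hf2 : ∀ n, n₀ ≤ n → f n ≤ E * n)
    (hf3 : ∀ n ∈ F, n₀ ≤ n → f n ∈ G) : Bg 𝒰 B G := by
  obtain ⟨D, hD⟩ := hF
  refine ⟨D * (E + 1), ?_⟩
  have h1 : ∀ᶠ N : ℕ in (𝒰 : Filter ℕ), max n₀ 3 ≤ N := h𝒰 (eventually_ge_atTop _)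
  filter_upwards [hD, h1] with N hN hN1
  have hn₀ : n₀ ≤ N := (le_max_left _ _).trans hN1
  have hN3 : 3 ≤ N := (le_max_right _ _).trans hN1
  have hlog : 0 ≤ Real.log N := Real.log_nonneg (by exact_mod_cast (by omega : 1 ≤ N))
  have h2 : {n : ℕ | n ∈ F ∧ N ≤ n ∧ n ≤ D * N}.ncard ≤
      {n : ℕ | n ∈ G ∧ N ≤ n ∧ n ≤ D * (E + 1) * N}.ncard := by
    refine Set.ncard_le_ncard_of_injOn f ?_
      (fun x hx y hy h => hinj (hn₀.trans hx.2.1) (hn₀.trans hy.2.1) h) (fin_win _ _ _)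
    rintro n ⟨h3, h4, h5⟩
    have h6 : n₀ ≤ n := hn₀.trans h4
    refine ⟨hf3 n h3 h6, h4.trans (hf1 n h6), (hf2 n h6).trans ?_⟩
    calc E * n ≤ E * (D * N) := Nat.mul_le_mul_left _ h5
      _ ≤ D * (E + 1) * N := by nlinarith
  refine hN.trans ?_
  have h3 : (({n : ℕ | n ∈ F ∧ N ≤ n ∧ n ≤ D * N}.ncard : ℕ) : ℝ) ≤
      (({n : ℕ | n ∈ G ∧ N ≤ n ∧ n ≤ D * (E + 1) * N}.ncard : ℕ) : ℝ) := by exact_mod_cast h2
  have h4 : (D : ℝ) ≤ ((D * (E + 1) : ℕ) : ℝ) := by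
    exact_mod_cast Nat.le_mul_of_pos_right _ (Nat.succ_pos _)
  gcongr

theorem Bg.mono {𝒰 : Ultrafilter ℕ} {B : ℕ} {F G : Set ℕ} (h𝒰 : (𝒰 : Filter ℕ) ≤ atTop)
    (hF : Bg 𝒰 B F) (h : F ⊆ G) : Bg 𝒰 B G :=
  hF.of h𝒰 id 0 Function.injective_id.injOn (fun _ _ => le_rfl) (E := 1)
    (fun n _ => by simp) fun n hn _ => h hn

theorem Bg.ge {𝒰 : Ultrafilter ℕ} {B : ℕ} {F G : Set ℕ} (h𝒰 : (𝒰 : Filter ℕ) ≤ atTop)
    (hF : Bg 𝒰 B F) (n₀ : ℕ) (h : ∀ n ∈ F, n₀ ≤ n → n ∈ G) : Bg 𝒰 B G :=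
  hF.of h𝒰 id n₀ Function.injective_id.injOn (fun _ _ => le_rfl) (E := 1)
    (fun n _ => by simp) h

theorem Bg.nonempty {𝒰 : Ultrafilter ℕ} {B : ℕ} {F : Set ℕ} (h𝒰 : (𝒰 : Filter ℕ) ≤ atTop)
    (hF : Bg 𝒰 B F) : F.Nonempty := by
  obtain ⟨D, hD⟩ := hF
  have h1 : ∀ᶠ N : ℕ in (𝒰 : Filter ℕ), 1 ≤ N := h𝒰 (eventually_ge_atTop _)
  obtain ⟨N, hN, hN1⟩ := (hD.and h1).exists
  by_contra hne
  rw [Set.not_nonempty_iff_eq_empty] at hne
  subst hne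
  simp at hN
  omega

/-- the choice of one of finitely many possibilities -/
theorem ultra_choice {𝒰 : Ultrafilter ℕ} {ι : Type*} [Finite ι] {P : ι → ℕ → Prop}
    (h : ∀ᶠ N : ℕ in (𝒰 : Filter ℕ), ∃ i, P i N) : ∃ i, ∀ᶠ N : ℕ in (𝒰 : Filter ℕ), P i N := by
  by_contra hcon
  have h1 : ∀ i, ∀ᶠ N : ℕ in (𝒰 : Filter ℕ), ¬ P i N := fun i =>
    Ultrafilter.eventually_not.2 fun h => hcon ⟨i, h⟩
  obtain ⟨N, ⟨i, hi⟩, h3⟩ := (h.and (eventually_all.2 h1)).exists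
  exact h3 i hi

theorem Bg.cover {𝒰 : Ultrafilter ℕ} {B : ℕ} {X : Set ℕ} {ι : Type*} [Fintype ι] (Y : ι → Set ℕ)
    (h𝒰 : (𝒰 : Filter ℕ) ≤ atTop)
    (hX : Bg 𝒰 B X) (h : X ⊆ ⋃ i, Y i) : ∃ i, Bg 𝒰 B (Y i) := by
  classical
  obtain ⟨D, hD⟩ := hX
  have h1 : ∀ᶠ N : ℕ in (𝒰 : Filter ℕ), 3 ≤ N := h𝒰 (eventually_ge_atTop _)
  have h2 : ∀ᶠ N : ℕ in (𝒰 : Filter ℕ), ∃ i,
      {n : ℕ | n ∈ X ∧ N ≤ n ∧ n ≤ D * N}.ncard ≤
        Fintype.card ι * {n : ℕ | n ∈ Y i ∧ N ≤ n ∧ n ≤ D * N}.ncard := by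
    filter_upwards [hD, h1] with N hN hN3
    by_contra hcon
    push Not at hcon
    have hne : Nonempty ι := by
      by_contra hι
      rw [not_nonempty_iff] at hι
      have hX0 : {n : ℕ | n ∈ X ∧ N ≤ n ∧ n ≤ D * N} = ∅ := by
        rw [Set.eq_empty_iff_forall_notMem]
        rintro n ⟨hn, -⟩
        obtain ⟨i, -⟩ := Set.mem_iUnion.1 (h hn)
        exact hι.elim i
      rw [hX0, Set.ncard_empty, Nat.cast_zero, mul_zero] at hN
      have : (3 : ℝ) ≤ N := by exact_mod_cast hN3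
      linarith
    have h3 : {n : ℕ | n ∈ X ∧ N ≤ n ∧ n ≤ D * N}.ncard ≤
        ∑ i : ι, {n : ℕ | n ∈ Y i ∧ N ≤ n ∧ n ≤ D * N}.ncard := by
      have h4 : {n : ℕ | n ∈ X ∧ N ≤ n ∧ n ≤ D * N} ⊆
          (univ.biUnion fun i : ι => (fin_win (Y i) D N).toFinset : Finset ℕ) := by
        rintro n ⟨hn, hn2⟩
        obtain ⟨i, hi⟩ := Set.mem_iUnion.1 (h hn)
        rw [mem_coe, mem_biUnion]
        exact ⟨i, mem_univ _, by rw [Set.Finite.mem_toFinset]; exact ⟨hi, hn2⟩⟩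
      refine (Set.ncard_le_ncard h4 (finite_toSet _)).trans ?_
      rw [Set.ncard_coe_finset]
      refine card_biUnion_le.trans (le_of_eq ?_)
      refine sum_congr rfl fun i _ => ?_
      rw [Set.ncard_eq_toFinset_card _ (fin_win (Y i) D N)]
    have h5 : ∑ i : ι, {n : ℕ | n ∈ X ∧ N ≤ n ∧ n ≤ D * N}.ncard >
        ∑ i : ι, Fintype.card ι * {n : ℕ | n ∈ Y i ∧ N ≤ n ∧ n ≤ D * N}.ncard :=
      sum_lt_sum_of_nonempty univ_nonempty fun i _ => hcon i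
    rw [sum_const, ← mul_sum, card_univ, smul_eq_mul] at h5
    exact absurd (Nat.mul_le_mul_left _ h3) (not_le.2 h5)
  obtain ⟨i, hi⟩ := ultra_choice h2
  refine ⟨i, D * (Fintype.card ι + 1), ?_⟩
  filter_upwards [hD, hi, h1] with N hN hNi hN3
  have hlog : 0 ≤ Real.log N := Real.log_nonneg (by exact_mod_cast (by omega : 1 ≤ N))
  have h3 : {n : ℕ | n ∈ X ∧ N ≤ n ∧ n ≤ D * N}.ncard ≤
      (Fintype.card ι + 1) * {n : ℕ | n ∈ Y i ∧ N ≤ n ∧ n ≤ D * (Fintype.card ι + 1) * N}.ncard := by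
    refine hNi.trans (Nat.mul_le_mul (Nat.le_succ _) (Set.ncard_le_ncard ?_ (fin_win _ _ _)))
    rintro n ⟨h4, h5, h6⟩
    refine ⟨h4, h5, h6.trans ?_⟩
    rw [mul_assoc]
    refine Nat.mul_le_mul_left _ (Nat.le_mul_of_pos_left _ (Nat.succ_pos _))
  refine hN.trans ?_
  have h4 : ({n : ℕ | n ∈ X ∧ N ≤ n ∧ n ≤ D * N}.ncard : ℝ) ≤ ((Fintype.card ι + 1 : ℕ) : ℝ) *
      ({n : ℕ | n ∈ Y i ∧ N ≤ n ∧ n ≤ D * (Fintype.card ι + 1) * N}.ncard : ℝ) := by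
    exact_mod_cast h3
  calc (D : ℝ) * (Real.log N) ^ B * ({n : ℕ | n ∈ X ∧ N ≤ n ∧ n ≤ D * N}.ncard : ℝ)
      ≤ (D : ℝ) * (Real.log N) ^ B * (((Fintype.card ι + 1 : ℕ) : ℝ) *
      ({n : ℕ | n ∈ Y i ∧ N ≤ n ∧ n ≤ D * (Fintype.card ι + 1) * N}.ncard : ℝ)) := by gcongr
    _ = _ := by push_cast; ring

/-- the theorem on classes of linear forms for an ultrafilter of scales -/
def Base (T K : ℕ) : Prop := ∀ (𝒰 : Ultrafilter ℕ), (𝒰 : Filter ℕ) ≤ atTop →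
  ∀ a b : Fin T → Fin K → ℤ, (∀ g i, 0 < a g i) → (∀ g i, IsCoprime (a g i) (b g i)) →
    Function.Injective (fun x : Fin T × Fin K => (a x.1 x.2, b x.1 x.2)) →
    (∀ p : ℕ, p.Prime → ∃ n : ℤ, ∀ g i, ¬ ((p : ℤ) ∣ a g i * n + b g i)) →
    ∃ (S : Finset (Fin T)) (c : Fin T → Fin K), (T : ℝ) ≤ (18 / 5) * (S.card : ℝ) ∧
      Bg 𝒰 (T * K + 2) {n : ℕ | ∀ g ∈ S, (a g (c g) * (n : ℤ) + b g (c g)).toNat.Prime}

theorem base (T : ℕ) : ∃ K : ℕ, 1 ≤ K ∧ (1 ≤ T → Base T K) := by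
  classical
  obtain ⟨K, hK, h⟩ := Pool.Agent.Y827.RO.lamRD T
  refine ⟨K, hK, fun hT 𝒰 h𝒰 a b ha hcop hinj hloc => ?_⟩
  set A₁ : ℕ := ∑ x : Fin T × Fin K, (a x.1 x.2).natAbs with hA₁
  set B₁ : ℕ := ∑ x : Fin T × Fin K, (b x.1 x.2).natAbs with hB₁
  have haA : ∀ g i, a g i ≤ A₁ := by
    intro g i
    have h1 : (a g i).natAbs ≤ A₁ :=
      single_le_sum (f := fun x : Fin T × Fin K => (a x.1 x.2).natAbs) (fun _ _ => Nat.zero_le _)
        (mem_univ (g, i))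
    have := ha g i
    omega
  have hbB : ∀ g i, |b g i| ≤ B₁ := by
    intro g i
    have h1 : (b g i).natAbs ≤ B₁ :=
      single_le_sum (f := fun x : Fin T × Fin K => (b x.1 x.2).natAbs) (fun _ _ => Nat.zero_le _)
        (mem_univ (g, i))
    rw [Int.abs_eq_natAbs]
    exact_mod_cast h1
  set E : ℕ := A₁ + 1 with hE
  have h1 := h hT E
  have hten : Tendsto (fun N : ℕ => E * N) (𝒰 : Filter ℕ) atTop :=
    (tendsto_id.const_mul_atTop' (by omega : 0 < E)).mono_left h𝒰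
  have h2 := hten.eventually h1
  have h3 : ∀ᶠ N : ℕ in (𝒰 : Filter ℕ), max (max B₁ E) 3 ≤ N := h𝒰 (eventually_ge_atTop _)
  have h4 : ∀ᶠ N : ℕ in (𝒰 : Filter ℕ), ∃ x : Finset (Fin T) × (Fin T → Fin K),
      (T : ℝ) ≤ (18 / 5) * (x.1.card : ℝ) ∧
      ((E * N : ℕ) : ℝ) / (Real.log ((E * N : ℕ) : ℝ)) ^ (T * K + 2) ≤
        (cntN (x.1.image (fun g => (a g (x.2 g), a g (x.2 g) * N + b g (x.2 g)))) (E * N) : ℝ) := by
    filter_upwards [h2, h3] with N hN hN1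
    have hB : B₁ ≤ N := (le_max_left _ _).trans ((le_max_left _ _).trans hN1)
    have hN3 : 3 ≤ N := (le_max_right _ _).trans hN1
    obtain ⟨S, c, hS, hc⟩ := hN (fun g i => (a g i, a g i * N + b g i)) (by
      intro x y hxy
      simp only [Prod.mk.injEq] at hxy
      refine hinj ?_
      simp only [Prod.mk.injEq]
      refine ⟨hxy.1, ?_⟩
      have := hxy.2
      rw [hxy.1] at this
      linarith) (by
      intro g i
      have ha0 := ha g i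
      have ha1 := haA g i
      have hb1 := abs_le.1 (hbB g i)
      have hBz : (B₁ : ℤ) ≤ N := by exact_mod_cast hB
      have haN : (N : ℤ) ≤ a g i * N := le_mul_of_one_le_left (by positivity) (by omega)
      have haN2 : a g i * N ≤ A₁ * N := mul_le_mul_of_nonneg_right ha1 (by positivity)
      refine ⟨ha0.ne', ?_, ?_, ?_, ?_⟩
      · rw [abs_of_pos ha0]
        push_cast [hE]
        linarith
      · rw [abs_le]
        push_cast [hE]
        constructor <;> nlinarith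
      · have h5 := (hcop g i)
        have h6 : IsCoprime (a g i) (b g i + a g i * N) := h5.add_mul_left_right _
        rwa [add_comm] at h6
      · intro t ht1 _
        simp only
        have ht0 : 0 ≤ t := le_trans (by positivity) ht1
        have h7 : (1 : ℝ) ≤ (a g i : ℝ) := by exact_mod_cast ha0
        have h8 : t ≤ (a g i : ℝ) * t := le_mul_of_one_le_left ht0 h7
        have h9 : (0 : ℝ) ≤ ((a g i * N + b g i : ℤ) : ℝ) := by
          have : (0 : ℤ) ≤ a g i * N + b g i := by linarith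
          exact_mod_cast this
        have h10 : (0 : ℝ) ≤ ((E * N : ℕ) : ℝ) := Nat.cast_nonneg _
        linarith) (by
      intro p hp _
      obtain ⟨r, hr⟩ := hloc p hp
      refine ⟨r - N, fun g i => ?_⟩
      have : a g i * (r - N) + (a g i * N + b g i) = a g i * r + b g i := by ring
      simp only
      rw [this]
      exact hr g i)
    exact ⟨(S, c), hS, hc⟩
  obtain ⟨⟨S, c⟩, h5⟩ := ultra_choice h4
  refine ⟨S, c, ?_, 2 ^ (T * K + 2) + E + 1, ?_⟩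
  · obtain ⟨N, hN⟩ := h5.exists
    exact hN.1
  filter_upwards [h5, h3] with N hN hN1
  have hEN : E ≤ N := (le_max_right _ _).trans ((le_max_left _ _).trans hN1)
  have hN3 : 3 ≤ N := (le_max_right _ _).trans hN1
  obtain ⟨-, hN⟩ := hN
  set D : ℕ := 2 ^ (T * K + 2) + E + 1 with hD
  have h6 : cntN (S.image (fun g => (a g (c g), a g (c g) * N + b g (c g)))) (E * N) ≤
      {n : ℕ | n ∈ {n : ℕ | ∀ g ∈ S, (a g (c g) * (n : ℤ) + b g (c g)).toNat.Prime} ∧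
        N ≤ n ∧ n ≤ D * N}.ncard := by
    unfold cntN
    rw [← Set.ncard_coe_finset]
    refine Set.ncard_le_ncard_of_injOn (fun n => n + N) ?_ (fun x _ y _ h => by simpa using h)
      (fin_win _ _ _)
    intro n hn
    rw [mem_coe, mem_filter, mem_Icc] at hn
    obtain ⟨⟨hn1, hn2⟩, hn3⟩ := hn
    refine ⟨?_, by simp, ?_⟩
    · show ∀ g ∈ S, (a g (c g) * ((n + N : ℕ) : ℤ) + b g (c g)).toNat.Prime
      intro g hg
      have := hn3 _ (mem_image.2 ⟨g, hg, rfl⟩)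
      simp only at this
      convert this using 2
      push_cast
      ring
    · show n + N ≤ D * N
      calc n + N ≤ E * N + N := by omega
        _ = (E + 1) * N := by ring
        _ ≤ D * N := Nat.mul_le_mul_right _ (by
            have : 0 < 2 ^ (T * K + 2) := Nat.pos_of_ne_zero (by positivity)
            omega)
  have hN0 : (0 : ℝ) < N := by exact_mod_cast (by omega : 0 < N)
  have hlog : 0 < Real.log N := Real.log_pos (by exact_mod_cast (by omega : 1 < N))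
  have hE0 : (0 : ℝ) < E := by exact_mod_cast (by omega : 0 < E)
  have hlogE : Real.log ((E * N : ℕ) : ℝ) ≤ 2 * Real.log N := by
    push_cast
    rw [Real.log_mul hE0.ne' hN0.ne']
    have : Real.log E ≤ Real.log N := Real.log_le_log hE0 (by exact_mod_cast hEN)
    linarith
  have hlogE0 : 0 < Real.log ((E * N : ℕ) : ℝ) := by
    refine Real.log_pos ?_
    have : 1 < E * N := by
      have : 1 * N ≤ E * N := Nat.mul_le_mul_right _ (by omega)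
      omega
    exact_mod_cast this
  rw [div_le_iff₀ (by positivity)] at hN
  have h7 : (N : ℝ) ≤ ((E * N : ℕ) : ℝ) := by
    have : 1 * N ≤ E * N := Nat.mul_le_mul_right _ (by omega)
    exact_mod_cast (by omega : N ≤ E * N)
  have h8 : (Real.log ((E * N : ℕ) : ℝ)) ^ (T * K + 2) ≤ (2 * Real.log N) ^ (T * K + 2) :=
    pow_le_pow_left₀ hlogE0.le hlogE _
  have h6' : ((cntN (S.image (fun g => (a g (c g), a g (c g) * N + b g (c g)))) (E * N) : ℕ) : ℝ) ≤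
      (({n : ℕ | n ∈ {n : ℕ | ∀ g ∈ S, (a g (c g) * (n : ℤ) + b g (c g)).toNat.Prime} ∧
        N ≤ n ∧ n ≤ D * N}.ncard : ℕ) : ℝ) := by exact_mod_cast h6
  obtain ⟨cn, hcnd⟩ : ∃ cn : ℝ,
    cn = (cntN (S.image (fun g => (a g (c g), a g (c g) * N + b g (c g)))) (E * N) : ℝ) := ⟨_, rfl⟩
  rw [← hcnd] at hN h6'
  have hcn : 0 ≤ cn := by rw [hcnd]; exact Nat.cast_nonneg _
  have h9 : cn ≤ (({n : ℕ | n ∈ {n : ℕ | ∀ g ∈ S, (a g (c g) * (n : ℤ) + b g (c g)).toNat.Prime} ∧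
        N ≤ n ∧ n ≤ D * N}.ncard : ℕ) : ℝ) := h6'
  have h10 : ((2 : ℝ) ^ (T * K + 2)) ≤ D := by
    rw [hD]; push_cast
    have : (0 : ℝ) ≤ A₁ := Nat.cast_nonneg _
    linarith
  calc (N : ℝ) ≤ cn * (Real.log ((E * N : ℕ) : ℝ)) ^ (T * K + 2) := h7.trans hN
    _ ≤ cn * (2 * Real.log N) ^ (T * K + 2) := by gcongr
    _ = 2 ^ (T * K + 2) * (Real.log N) ^ (T * K + 2) * cn := by rw [mul_pow]; ring
    _ ≤ D * (Real.log N) ^ (T * K + 2) * cn := by gcongr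
    _ ≤ _ := mul_le_mul_of_nonneg_left h9 (by positivity)

end Pool.Agent.V5helper70.CC
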