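import Mathlib
import Pool.Agent.V5helper70.CC.Bg

/-!
# Primes at prescribed times of the sequences `M - 1, b M - 1, b ^ 2 M - 1, ...`, composite values at all
other times, with `q ∣ M`
-/

set_option autoImplicit false

namespace Pool.Agent.V5helper70.CC

open Finset Filter

/-- the term at time `t` of the sequence `M - 1, b M - 1, b ^ 2 M - 1, ...` is prime -/
def Pr (b M t : ℕ) : Prop := (b ^ t * M - 1).Prime

theorem Pr_shift (b M j t : ℕ) : Pr b (b ^ j * M) t ↔ Pr b M (j + t) := by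
  unfold Pr
  rw [← mul_assoc, ← pow_add, add_comm t j]

theorem block (b q W : ℕ) (hb : 2 ≤ b) (hq : 0 < q) (E : Finset ℕ) (hE : ∀ t ∈ E, t ≤ W) :
    ∃ Q r : ℕ, 0 < Q ∧
      (∀ t ≤ W, t ∉ E → ∃ l : ℕ, l.Prime ∧ l ∣ Q ∧ b ^ t * (q * r) ≡ 1 [MOD l]) ∧
      ∀ l : ℕ, l.Prime → l ∣ Q → ∀ t ∈ E, ¬ b ^ t * (q * r) ≡ 1 [MOD l] := by
  classical
  obtain ⟨L, hL⟩ : ∃ L : ℕ → ℕ, L = fun t => Nat.nth Nat.Prime (b ^ W * q + t) := ⟨_, rfl⟩
  have hLp : ∀ t, (L t).Prime := fun t => by rw [hL]; exact Nat.prime_nth_prime _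
  have hLinj : Function.Injective L := by
    intro s t hst
    rw [hL] at hst
    have := Nat.nth_injective Nat.infinite_setOfPred_prime hst
    omega
  have hLbig : ∀ t, b ^ W * q < L t := by
    intro t
    have := Nat.add_two_le_nth_prime (b ^ W * q + t)
    rw [hL]
    show b ^ W * q < Nat.nth Nat.Prime (b ^ W * q + t)
    omega
  have hbW : ∀ t, t ≤ W → b ^ t ≤ b ^ W := fun t ht => Nat.pow_le_pow_right (by omega) ht
  have hz : ∀ t, ∃ z : ℕ, t ≤ W → b ^ t * q * z ≡ 1 [MOD L t] := by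
    intro t
    by_cases ht : t ≤ W
    · have hpos : 0 < b ^ t * q := Nat.mul_pos (by positivity) hq
      have hlt : b ^ t * q < L t := lt_of_le_of_lt (Nat.mul_le_mul_right _ (hbW t ht)) (hLbig t)
      have hc : Nat.Coprime (b ^ t * q) (L t) :=
        ((Nat.Prime.coprime_iff_not_dvd (hLp t)).2 fun h =>
          absurd (Nat.le_of_dvd hpos h) (by omega)).symm
      obtain ⟨z, -, hz⟩ := Nat.exists_mul_mod_eq_one_of_coprime hc (hLp t).one_lt
      refine ⟨z, fun _ => ?_⟩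
      show b ^ t * q * z % L t = 1 % L t
      rw [hz, Nat.mod_eq_of_lt (hLp t).one_lt]
    · exact ⟨0, fun h => absurd h ht⟩
  choose z hz using hz
  set U : Finset ℕ := (range (W + 1)).filter fun t => t ∉ E with hU
  have hpair : Set.Pairwise (U : Set ℕ) (Function.onFun Nat.Coprime L) := by
    intro s _ t _ hst
    exact (Nat.coprime_primes (hLp s) (hLp t)).2 fun h => hst (hLinj h)
  obtain ⟨r, hr⟩ := Nat.chineseRemainderOfFinset z L U (fun t _ => (hLp t).ne_zero) hpair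
  have hrd : ∀ t ∈ U, b ^ t * (q * r) ≡ 1 [MOD L t] := by
    intro t ht
    have htW : t ≤ W := by
      have := (mem_filter.1 ht).1
      rw [mem_range] at this; omega
    rw [← mul_assoc]
    exact ((hr t ht).mul_left _).trans (hz t htW)
  refine ⟨∏ t ∈ U, L t, r, prod_pos fun t _ => (hLp t).pos, ?_, ?_⟩
  · intro t ht hne
    have htU : t ∈ U := by rw [hU, mem_filter, mem_range]; exact ⟨by omega, hne⟩
    exact ⟨L t, hLp t, dvd_prod_of_mem L htU, hrd t htU⟩
  · intro p hp hpQ s hs hd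
    obtain ⟨t, htU, hpt⟩ := (hp.prime.dvd_finsetProd_iff _).1 hpQ
    have hpq : p = L t := (Nat.prime_dvd_prime_iff_eq hp (hLp t)).1 hpt
    subst hpq
    have htE : t ∉ E := (mem_filter.1 htU).2
    have htW : t ≤ W := by
      have := (mem_filter.1 htU).1
      rw [mem_range] at this; omega
    have hsW := hE s hs
    have h1 := hrd t htU
    have key : ∀ d : ℕ, 0 < d → d ≤ W → ¬ 1 ≡ b ^ d [MOD L t] := by
      intro d hd0 hdW hdd
      have h2 : b ^ d < L t := lt_of_le_of_lt ((hbW d hdW).trans (Nat.le_mul_of_pos_right _ hq))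
        (hLbig t)
      have h3 := Nat.ModEq.eq_of_lt_of_lt hdd (hLp t).one_lt h2
      have h4 : 1 < b ^ d := Nat.one_lt_pow (by omega) (by omega)
      omega
    have step : ∀ i j : ℕ, i < j → b ^ i * (q * r) ≡ 1 [MOD L t] → b ^ j * (q * r) ≡ 1 [MOD L t] →
        1 ≡ b ^ (j - i) [MOD L t] := by
      intro i j hij hi hj
      have e1 : b ^ j * (q * r) = b ^ (j - i) * (b ^ i * (q * r)) := by
        rw [← mul_assoc (b ^ (j - i)), ← pow_add]
        congr 2
        omega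
      rw [e1] at hj
      have h5 := hi.mul_left (b ^ (j - i))
      rw [mul_one] at h5
      exact hj.symm.trans h5
    rcases lt_trichotomy s t with h | h | h
    · exact key (t - s) (by omega) (by omega) (step s t h hd h1)
    · exact htE (h ▸ hs)
    · exact key (s - t) (by omega) (by omega) (step t s h h1 hd)

theorem classes {T K : ℕ} (hB : Base T K) (𝒰 : Ultrafilter ℕ) (h𝒰 : (𝒰 : Filter ℕ) ≤ atTop)
    (b q : ℕ) (hb : 2 ≤ b) (hq : 0 < q) (H : Fin T → Fin K → ℕ)
    (hinj : Function.Injective (fun x : Fin T × Fin K => H x.1 x.2)) (W₀ : ℕ) :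
    ∃ (S : Finset (Fin T)) (c : Fin T → Fin K), (T : ℝ) ≤ (18 / 5) * (S.card : ℝ) ∧
      Bg 𝒰 (T * K + 2) {M : ℕ | 0 < M ∧ q ∣ M ∧ (∀ g ∈ S, Pr b M (H g (c g))) ∧
        ∀ t ≤ W₀, (∀ g i, H g i ≠ t) → ¬ Pr b M t} := by
  classical
  set E : Finset ℕ := univ.image fun x : Fin T × Fin K => H x.1 x.2 with hE
  have hmemE : ∀ g i, H g i ∈ E := fun g i => mem_image.2 ⟨(g, i), mem_univ _, rfl⟩
  obtain ⟨W, hW0, hW⟩ : ∃ W, W₀ ≤ W ∧ ∀ t ∈ E, t ≤ W :=
    ⟨max W₀ (E.sup id), le_max_left _ _, fun t ht =>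
      (le_sup (f := id) ht).trans (le_max_right _ _)⟩
  obtain ⟨Q, r, hQ0, hb1, hb2⟩ := block b q W hb hq E hW
  have hbpos : ∀ j : ℕ, (0 : ℤ) < (b : ℤ) ^ j := fun j => by positivity
  have hb2' : ∀ l : ℕ, l.Prime → l ∣ Q → ∀ t ∈ E, ¬ (l : ℤ) ∣ (b : ℤ) ^ t * (q * r) - 1 := by
    intro l hl hlQ t ht hd
    refine hb2 l hl hlQ t ht ?_
    have h1 : (1 : ℤ) ≡ (b : ℤ) ^ t * (q * r) [ZMOD l] := (Int.modEq_iff_dvd).2 hd
    have h2 : ((1 : ℕ) : ℤ) ≡ ((b ^ t * (q * r) : ℕ) : ℤ) [ZMOD l] := by push_cast; exact h1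
    exact (Int.natCast_modEq_iff.1 h2).symm
  obtain ⟨S, c, hS, hBg⟩ := hB 𝒰 h𝒰 (fun g i => (b : ℤ) ^ (H g i) * q * Q)
    (fun g i => (b : ℤ) ^ (H g i) * (q * r) - 1)
    (fun g i => by positivity)
    (by
      intro g i
      refine isCoprime_of_prime_dvd (fun h => ?_) fun x hx hx1 hx2 => ?_
      · have : (b : ℤ) ^ (H g i) * q * Q ≠ 0 := by positivity
        exact this h.1
      · have hp : (x.natAbs).Prime := Int.prime_iff_natAbs_prime.1 hx
        rcases hx.dvd_or_dvd hx1 with h3 | h3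
        · have h4 : x ∣ (b : ℤ) ^ (H g i) * (q * r) := by
            rw [← mul_assoc]
            exact h3.mul_right _
          have h5 : x ∣ 1 := by
            have := dvd_sub h4 hx2
            simpa using this
          exact hx.not_isUnit (isUnit_of_dvd_one h5)
        · refine hb2' x.natAbs hp ?_ (H g i) (hmemE g i) ?_
          · exact Int.natAbs_dvd_natAbs.2 h3 |>.trans (by simp)
          · exact (Int.natAbs_dvd).2 hx2)
    (by
      intro x y hxy
      simp only [Prod.mk.injEq] at hxy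
      have hQq : (0 : ℤ) < (q : ℤ) * Q := by positivity
      have h0 := hxy.1
      rw [mul_assoc, mul_assoc] at h0
      have h1 := mul_right_cancel₀ hQq.ne' h0
      have h2 : b ^ (H x.1 x.2) = b ^ (H y.1 y.2) := by exact_mod_cast h1
      exact hinj (Nat.pow_right_injective hb h2))
    (by
      intro p hp
      by_cases hpQ : p ∣ Q
      · refine ⟨0, fun g i hd => hb2' p hp hpQ _ (hmemE g i) ?_⟩
        simpa using hd
      · have hc : IsCoprime (Q : ℤ) (p : ℤ) := by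
          rw [Nat.isCoprime_iff_coprime]
          exact ((Nat.Prime.coprime_iff_not_dvd hp).2 hpQ).symm
        obtain ⟨u, v, huv⟩ := hc
        refine ⟨-(u * r), fun g i hd => ?_⟩
        have e1 : (b : ℤ) ^ (H g i) * q * Q * (-(u * r)) + ((b : ℤ) ^ (H g i) * (q * r) - 1) =
            p * ((b : ℤ) ^ (H g i) * q * r * v) - 1 := by
          linear_combination (-((b : ℤ) ^ (H g i) * q * r)) * huv
        rw [e1] at hd
        have h5 : (p : ℤ) ∣ 1 := by
          have := dvd_sub (dvd_mul_right (p : ℤ) ((b : ℤ) ^ (H g i) * q * r * v)) hd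
          simpa using this
        have h6 : p ∣ 1 := by exact_mod_cast h5
        exact hp.one_lt.ne' (Nat.dvd_one.1 h6))
  refine ⟨S, c, hS, hBg.of h𝒰 (E := q * (Q + r)) (fun n => q * (Q * n + r)) (Q + 2) ?_ ?_ ?_ ?_⟩
  · intro m _ n _ hmn
    simp only at hmn
    have h1 := Nat.eq_of_mul_eq_mul_left hq hmn
    have h2 : Q * m = Q * n := by omega
    exact Nat.eq_of_mul_eq_mul_left hQ0 h2
  · intro n _
    calc n ≤ Q * n := Nat.le_mul_of_pos_left _ hQ0
      _ ≤ Q * n + r := Nat.le_add_right _ _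
      _ ≤ q * (Q * n + r) := Nat.le_mul_of_pos_left _ hq
  · intro n hn
    have h1 : 1 ≤ n := by omega
    have h2 : r ≤ r * n := Nat.le_mul_of_pos_right _ h1
    calc q * (Q * n + r) ≤ q * (Q * n + r * n) := Nat.mul_le_mul_left _ (by omega)
      _ = q * (Q + r) * n := by ring
  · intro n hn hn0
    have hM : n ≤ q * (Q * n + r) := by
      calc n ≤ Q * n := Nat.le_mul_of_pos_left _ hQ0
        _ ≤ Q * n + r := Nat.le_add_right _ _
        _ ≤ q * (Q * n + r) := Nat.le_mul_of_pos_left _ hq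
    refine ⟨by omega, dvd_mul_right _ _, fun g hg => ?_, fun t ht hne => ?_⟩
    · have h1 := hn g hg
      unfold Pr
      have e1 : ((b : ℤ) ^ (H g (c g)) * q * Q * (n : ℤ) + ((b : ℤ) ^ (H g (c g)) * (q * r) - 1)) =
          ((b ^ (H g (c g)) * (q * (Q * n + r)) : ℕ) : ℤ) - 1 := by
        push_cast; ring
      rw [e1] at h1
      have e2 : (((b ^ (H g (c g)) * (q * (Q * n + r)) : ℕ) : ℤ) - 1).toNat =
          b ^ (H g (c g)) * (q * (Q * n + r)) - 1 := by omega
      rwa [e2] at h1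
    · obtain ⟨l, hl, hlQ, hlr⟩ := hb1 t (ht.trans hW0) (by
        intro h
        obtain ⟨x, -, hx⟩ := mem_image.1 h
        exact hne _ _ hx)
      intro hP
      unfold Pr at hP
      have h2 : b ^ t * (q * (Q * n + r)) ≡ 1 [MOD l] := by
        refine Nat.ModEq.trans ?_ hlr
        refine Nat.ModEq.mul_left _ (Nat.ModEq.mul_left _ ?_)
        have h3 : Q * n ≡ 0 [MOD l] := (Nat.modEq_zero_iff_dvd).2 (hlQ.mul_right _)
        simpa using h3.add_right r
      have hbt : 1 ≤ b ^ t := Nat.one_le_pow _ _ (by omega)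
      have h4 : q * (Q * n + r) ≤ b ^ t * (q * (Q * n + r)) := Nat.le_mul_of_pos_left _ hbt
      have h5 : l ∣ b ^ t * (q * (Q * n + r)) - 1 := (Nat.modEq_iff_dvd' (by omega)).1 h2.symm
      have h6 : l = b ^ t * (q * (Q * n + r)) - 1 := (Nat.prime_dvd_prime_iff_eq hl hP).1 h5
      have h7 := Nat.le_of_dvd hQ0 hlQ
      omega

/-- uniformity in the divisor -/
theorem unif {X : Type*} [Finite X] {R : X → ℕ → Prop} (h : ∀ q, 0 < q → ∃ x, R x q)
    (hd : ∀ x q q', q' ∣ q → R x q → R x q') : ∃ x, ∀ q, 0 < q → R x q := by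
  classical
  have := Fintype.ofFinite X
  by_contra hcon
  push Not at hcon
  choose Q hQ0 hQ using hcon
  obtain ⟨x, hx⟩ := h (∏ x, Q x) (prod_pos fun x _ => hQ0 x)
  exact hQ x (hd x _ _ (dvd_prod_of_mem Q (mem_univ x)) hx)

/-- larger exponents -/
theorem Bg.exp {𝒰 : Ultrafilter ℕ} {B B' : ℕ} {F : Set ℕ} (h𝒰 : (𝒰 : Filter ℕ) ≤ atTop)
    (hF : Bg 𝒰 B F) (h : B ≤ B') : Bg 𝒰 B' F := by
  obtain ⟨D, hD⟩ := hF
  refine ⟨D, ?_⟩
  have h1 : ∀ᶠ N : ℕ in (𝒰 : Filter ℕ), 3 ≤ N := h𝒰 (eventually_ge_atTop _)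
  filter_upwards [hD, h1] with N hN hN3
  have hlog : 1 ≤ Real.log N := by
    rw [← Real.log_exp 1]
    apply Real.log_le_log (Real.exp_pos 1)
    have := Real.exp_one_lt_d9
    have : (3 : ℝ) ≤ N := by exact_mod_cast hN3
    linarith
  refine hN.trans ?_
  have := pow_le_pow_right₀ hlog h
  gcongr

end Pool.Agent.V5helper70.CC
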