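import Mathlib
import Pool.Agent.V5helper70.CC.Pos
import Pool.Agent.V5helper70.CC.Pat

/-!
# Exact patterns of primes in the sequences `M - 1, b M - 1, b ^ 2 M - 1, ...` at almost all scales of an
ultrafilter, for `M` divisible by every given number
-/

set_option autoImplicit false

namespace Pool.Agent.V5helper70.CC

open Finset Filter
open Pool.Agent.W218.OG.Ab (Trans)

/-- the same exact pattern up to time `W₀` for all divisors `q` -/
theorem exactS {T K : ℕ} (hB : Base T K) (𝒰 : Ultrafilter ℕ) (h𝒰 : (𝒰 : Filter ℕ) ≤ atTop)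
    (b : ℕ) (hb : 2 ≤ b) (W₀ : ℕ) (H : Fin T → Fin K → ℕ)
    (hinj : Function.Injective (fun x : Fin T × Fin K => H x.1 x.2)) :
    ∃ (P : Finset ℕ) (S : Finset (Fin T)) (c : Fin T → Fin K),
      (∀ t ∈ P, ∃ g i, H g i = t) ∧ (T : ℝ) ≤ (18 / 5) * (S.card : ℝ) ∧ (∀ g ∈ S, H g (c g) ∈ P) ∧
      ∀ q, 0 < q → Bg 𝒰 (T * K + 2) {M : ℕ | 0 < M ∧ q ∣ M ∧ ∀ t ≤ W₀, (Pr b M t ↔ t ∈ P)} := by
  classical
  set O : Finset ℕ := univ.image fun x : Fin T × Fin K => H x.1 x.2 with hO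
  have hOm : ∀ g i, H g i ∈ O := fun g i => mem_image.2 ⟨(g, i), mem_univ _, rfl⟩
  obtain ⟨⟨P, S, c⟩, hx⟩ := unif (X := {P // P ∈ O.powerset} × Finset (Fin T) × (Fin T → Fin K))
    (R := fun x q => (T : ℝ) ≤ (18 / 5) * (x.2.1.card : ℝ) ∧ (∀ g ∈ x.2.1, H g (x.2.2 g) ∈ x.1.1) ∧
      Bg 𝒰 (T * K + 2) {M : ℕ | 0 < M ∧ q ∣ M ∧ ∀ t ≤ W₀, (Pr b M t ↔ t ∈ x.1.1)}) (by
    intro q hq
    obtain ⟨S, c, hS, hX⟩ := classes hB 𝒰 h𝒰 b q hb hq H hinj W₀
    set X : Set ℕ := {M : ℕ | 0 < M ∧ q ∣ M ∧ (∀ g ∈ S, Pr b M (H g (c g))) ∧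
        ∀ t ≤ W₀, (∀ g i, H g i ≠ t) → ¬ Pr b M t} with hXd
    obtain ⟨⟨P, hP⟩, hPB⟩ := Bg.cover (ι := {P // P ∈ O.powerset})
      (fun P => {M | M ∈ X ∧ O.filter (fun t => Pr b M t) = P.1}) h𝒰 hX (by
      intro n hn
      rw [Set.mem_iUnion]
      exact ⟨⟨_, mem_powerset.2 (filter_subset _ _)⟩, hn, rfl⟩)
    refine ⟨(⟨P, hP⟩, S, c), hS, ?_, ?_⟩
    · intro g hg
      obtain ⟨n, hn, hnP⟩ := hPB.nonempty h𝒰
      have hnP' : O.filter (fun t => Pr b n t) = P := hnP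
      show H g (c g) ∈ P
      rw [← hnP']
      exact mem_filter.2 ⟨hOm _ _, hn.2.2.1 g hg⟩
    · refine hPB.mono h𝒰 ?_
      rintro M ⟨⟨h0, h1, h2, h3⟩, h4⟩
      refine ⟨h0, h1, fun t ht => ?_⟩
      have h4' : O.filter (fun t => Pr b M t) = P := h4
      show Pr b M t ↔ t ∈ P
      rw [← h4', mem_filter]
      constructor
      · intro h
        refine ⟨?_, h⟩
        by_contra hO'
        exact h3 t ht (fun g i h' => hO' (h' ▸ hOm g i)) h
      · exact fun h => h.2) (by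
    rintro x q q' hqq ⟨h1, h2, h3⟩
    refine ⟨h1, h2, h3.mono h𝒰 ?_⟩
    rintro M ⟨h4, h5, h6⟩
    exact ⟨h4, hqq.trans h5, h6⟩)
  refine ⟨P.1, S, c, fun t ht => ?_, (hx 1 one_pos).1, (hx 1 one_pos).2.1, fun q hq => (hx q hq).2.2⟩
  obtain ⟨x, -, hx⟩ := mem_image.1 (mem_powerset.1 P.2 ht)
  exact ⟨x.1, x.2, hx⟩

/-- the pattern `P` is realized exactly, with radius `R`, around time `R` -/
def PatO (𝒰 : Ultrafilter ℕ) (B b : ℕ) (P : Finset ℤ) (R : ℕ) : Prop :=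
  ∀ q : ℕ, 0 < q → Bg 𝒰 B {M : ℕ | 0 < M ∧ q ∣ M ∧
    ∀ y : ℤ, |y| ≤ R → (Pr b M ((R : ℤ) + y).toNat ↔ y ∈ P)}

theorem big_shift {𝒰 : Ultrafilter ℕ} (h𝒰 : (𝒰 : Filter ℕ) ≤ atTop) {B b : ℕ} (hb : 2 ≤ b) (j : ℕ)
    {F G : Set ℕ} (hF : Bg 𝒰 B F) (h : ∀ n ∈ F, b ^ j * n ∈ G) : Bg 𝒰 B G :=
  hF.of h𝒰 (E := b ^ j) (fun n => b ^ j * n) 0
    (fun m _ n _ h => Nat.eq_of_mul_eq_mul_left (by positivity) h)
    (fun n _ => Nat.le_mul_of_pos_left _ (by positivity)) (fun _ _ => le_rfl) fun n hn _ => h n hn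

theorem transO {𝒰 : Ultrafilter ℕ} (h𝒰 : (𝒰 : Filter ℕ) ≤ atTop) (B b : ℕ) (hb : 2 ≤ b) :
    Trans (PatO 𝒰 B b) := by
  intro P H G R t hP hle hy q hq
  have ht := neg_abs_le t
  obtain ⟨j, hj⟩ : ∃ j : ℕ, (j : ℤ) = G + t - R :=
    ⟨((G : ℤ) + t - R).toNat, Int.toNat_of_nonneg (by linarith)⟩
  refine big_shift h𝒰 hb j (hP q hq) ?_
  rintro M ⟨h0, h1, h2⟩
  refine ⟨Nat.mul_pos (by positivity) h0, h1.mul_left _, fun y hyR => ?_⟩
  have h3 := h2 (t + y) ((abs_add_le _ _).trans (by linarith))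
  rw [← hy y hyR, ← h3, Pr_shift]
  have h4 : j + ((R : ℤ) + y).toNat = ((G : ℤ) + (t + y)).toNat := by
    have := abs_le.1 hyR
    omega
  rw [h4]

/-- exact clusters, with the positions of all elements -/
theorem clustersO {T K : ℕ} (hB : Base T K) {𝒰 : Ultrafilter ℕ} (h𝒰 : (𝒰 : Filter ℕ) ≤ atTop)
    (b : ℕ) (hb : 2 ≤ b) (pos : Fin T → ℤ) (R : ℕ) :
    ∃ (P : Finset ℤ) (F : Finset (Fin T)) (h : Fin T → ℤ), T ≤ 4 * F.card ∧
      Function.Injective h ∧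
      (∀ g, ((T * K + 1 : ℕ) : ℤ) * pos g ≤ h g ∧ h g < ((T * K + 1 : ℕ) : ℤ) * pos g + (T * K + 1 : ℕ)) ∧
      (∀ g ∈ F, h g ∈ P) ∧ (∀ y ∈ P, ∃ g, ((T * K + 1 : ℕ) : ℤ) * pos g ≤ y ∧
        y < ((T * K + 1 : ℕ) : ℤ) * pos g + (T * K + 1 : ℕ)) ∧
      PatO 𝒰 (T * K + 2) b P R := by
  classical
  obtain ⟨Q, hQdef⟩ : ∃ Q : ℕ, Q = T * K + 1 := ⟨_, rfl⟩
  rw [← hQdef]
  have hQpos : 0 < Q := by omega
  set idx : Fin T × Fin K → ℕ := fun x => (finProdFinEquiv x : ℕ) with hidx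
  have hidxlt : ∀ x, idx x < Q := fun x => by
    have : (finProdFinEquiv x : ℕ) < T * K := (finProdFinEquiv x).2
    simp only [hidx, hQdef]
    omega
  set bb : Fin T → Fin K → ℤ := fun g i => (Q : ℤ) * pos g + (idx (g, i) : ℕ) with hbb
  have hmod : ∀ g i, bb g i % Q = (idx (g, i) : ℕ) := by
    intro g i
    rw [hbb]
    simp only
    rw [add_comm, Int.add_mul_emod_self_left]
    exact Int.emod_eq_of_lt (by positivity) (by exact_mod_cast hidxlt (g, i))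
  have hbinj : ∀ g i g' i', bb g i = bb g' i' → (g, i) = (g', i') := by
    intro g i g' i' h
    have h1 : idx (g, i) = idx (g', i') := by
      have h2 := hmod g i
      rw [h, hmod g' i'] at h2
      exact_mod_cast h2.symm
    exact finProdFinEquiv.injective (Fin.ext h1)
  have hcell : ∀ g i, (Q : ℤ) * pos g ≤ bb g i ∧ bb g i < Q * pos g + Q := by
    intro g i
    rw [hbb]
    simp only
    have h2 : ((idx (g, i) : ℕ) : ℤ) < Q := by exact_mod_cast hidxlt (g, i)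
    have : (0 : ℤ) ≤ ((idx (g, i) : ℕ) : ℤ) := by positivity
    exact ⟨by linarith, by linarith⟩
  set B0 : ℕ := R + ∑ x : Fin T × Fin K, (bb x.1 x.2).natAbs with hB0
  have hbB : ∀ g i, (bb g i).natAbs ≤ B0 := by
    intro g i
    have h1 : (bb g i).natAbs ≤ ∑ x : Fin T × Fin K, (bb x.1 x.2).natAbs :=
      single_le_sum (f := fun x : Fin T × Fin K => (bb x.1 x.2).natAbs) (fun _ _ => Nat.zero_le _)
        (mem_univ (g, i))
    omega
  set H : Fin T → Fin K → ℕ := fun g i => ((B0 : ℤ) + bb g i).toNat with hH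
  have hHz : ∀ g i, ((H g i : ℕ) : ℤ) = B0 + bb g i := by
    intro g i
    have := hbB g i
    simp only [hH]
    omega
  obtain ⟨P', F, c, hP', hF, hc, hBg⟩ := exactS hB 𝒰 h𝒰 b hb (2 * B0) H (by
    intro x y h
    have h1 : H x.1 x.2 = H y.1 y.2 := h
    have h2 := hHz x.1 x.2
    rw [h1, hHz] at h2
    exact hbinj _ _ _ _ (by linarith))
  refine ⟨P'.image fun t : ℕ => (t : ℤ) - B0, F, fun g => bb g (c g), ?_, ?_,
    fun g => hcell g (c g), fun g hg => ?_, fun y hy => ?_, ?_⟩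
  · have h1 : (T : ℝ) ≤ ((4 * F.card : ℕ) : ℝ) := by
      refine hF.trans ?_
      push_cast
      have : (0 : ℝ) ≤ F.card := Nat.cast_nonneg _
      linarith
    exact_mod_cast h1
  · intro g g' h
    exact congrArg Prod.fst (hbinj _ _ _ _ h)
  · refine mem_image.2 ⟨_, hc g hg, ?_⟩
    rw [hHz]; ring
  · obtain ⟨t, ht, rfl⟩ := mem_image.1 hy
    obtain ⟨g, i, rfl⟩ := hP' t ht
    refine ⟨g, ?_⟩
    rw [hHz]
    have := hcell g i
    have e1 : (B0 : ℤ) + bb g i - B0 = bb g i := by ring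
    rw [e1]
    exact this
  · intro q hq
    refine big_shift h𝒰 hb (B0 - R) (hBg q hq) ?_
    rintro M ⟨h0, h1, h2⟩
    refine ⟨Nat.mul_pos (by positivity) h0, h1.mul_left _, fun y hyR => ?_⟩
    have hyR' := abs_le.1 hyR
    have h3 := h2 (((B0 : ℤ) + y).toNat) (by omega)
    rw [Pr_shift]
    have h4 : B0 - R + ((R : ℤ) + y).toNat = ((B0 : ℤ) + y).toNat := by omega
    rw [h4, h3, mem_image]
    constructor
    · intro h
      exact ⟨_, h, by omega⟩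
    · rintro ⟨t, ht, hty⟩
      have h5 : ((B0 : ℤ) + y).toNat = t := by omega
      rw [h5]
      exact ht

theorem PatO.exp {𝒰 : Ultrafilter ℕ} (h𝒰 : (𝒰 : Filter ℕ) ≤ atTop) {B B' b : ℕ} (h : B ≤ B')
    {P : Finset ℤ} {R : ℕ} (hP : PatO 𝒰 B b P R) : PatO 𝒰 B' b P R :=
  fun q hq => (hP q hq).exp h𝒰 h

/-- exact clusters indexed by a finite type, with at least `m` elements in an eighth of them -/
theorem clusO (m W : ℕ) (hm : 1 ≤ m) (hW0 : 1 ≤ W) : ∃ B₀ : ℕ, ∀ (B : ℕ), B₀ ≤ B → ∀ (𝒰 : Ultrafilter ℕ),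
    (𝒰 : Filter ℕ) ≤ atTop → ∀ b : ℕ, 2 ≤ b → ClusW (PatO 𝒰 B b) m W := by
  classical
  obtain ⟨K, hK, hBase⟩ := base (W * (8 * m))
  refine ⟨W * (8 * m) * K + 2, fun B hB 𝒰 h𝒰 b hb => ?_⟩
  have hBase := hBase (Nat.mul_pos hW0 (by omega))
  refine ⟨W * (8 * m) * K + 1, by omega, fun pos R => ?_⟩
  let f : Fin W × Fin (8 * m) ≃ Fin (W * (8 * m)) := finProdFinEquiv
  obtain ⟨P, S, h, hS, hinj, hpos, hSP, hPc, hE⟩ :=
    clustersO hBase h𝒰 b hb (fun g => pos (f.symm g).1) R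
  set F : Fin W → Finset (Fin (W * (8 * m))) := fun w => S.filter (fun g => (f.symm g).1 = w) with hF
  set A : Finset (Fin W) := univ.filter (fun w => m ≤ (F w).card) with hA
  refine ⟨P, A, ?_, ?_, ?_, hE.exp h𝒰 hB⟩
  · have h1 : S.card = ∑ w, (F w).card := by
      rw [card_eq_sum_card_fiberwise (f := fun g => (f.symm g).1) (t := univ) (fun _ _ => by simp)]
    have h2 : ∀ w, (F w).card ≤ 8 * m := by
      intro w
      have h3 : (F w).card ≤ (univ : Finset (Fin (8 * m))).card := by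
        apply card_le_card_of_injOn (fun g => (f.symm g).2) (fun _ _ => by simp)
        intro g hg g' hg' hgg
        have e1 := (mem_filter.1 hg).2
        have e2 := (mem_filter.1 hg').2
        apply f.symm.injective
        exact Prod.ext (e1.trans e2.symm) hgg
      simpa using h3
    have h3 : S.card ≤ A.card * (8 * m) + W * m := by
      rw [h1]
      calc ∑ w, (F w).card ≤ ∑ w, ((if w ∈ A then 8 * m else 0) + m) := by
            apply sum_le_sum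
            intro w _
            by_cases hw : w ∈ A
            · rw [if_pos hw]
              have := h2 w
              omega
            · rw [if_neg hw]
              have : ¬ m ≤ (F w).card := fun h => hw (mem_filter.2 ⟨mem_univ _, h⟩)
              omega
        _ = A.card * (8 * m) + W * m := by
            rw [sum_add_distrib, sum_const, ← sum_filter, sum_const]
            simp
    have h4 : W * (8 * m) ≤ 4 * (A.card * (8 * m) + W * m) := hS.trans (by omega)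
    have h5 : W * (4 * m) ≤ (8 * A.card) * (4 * m) := by nlinarith
    exact Nat.le_of_mul_le_mul_right h5 (by omega)
  · intro w hw
    refine (mem_filter.1 hw).2.trans ?_
    apply card_le_card_of_injOn h
    · intro g hg
      have hg' := mem_filter.1 hg
      rw [mem_coe, mem_filter]
      refine ⟨hSP g hg'.1, ?_⟩
      have := hpos g
      simp only [hg'.2] at this
      exact this
    · exact hinj.injOn
  · intro y hy
    obtain ⟨g, hg⟩ := hPc y hy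
    exact ⟨_, hg⟩

/-- **the primes follow every finite pattern up to a bounded error, at almost all scales** -/
theorem patterns (k m : ℕ) : ∃ B : ℕ, ∀ (𝒰 : Ultrafilter ℕ), (𝒰 : Filter ℕ) ≤ atTop →
    ∀ b : ℕ, 2 ≤ b → ∃ C : ℕ, ∀ V : Finset ℕ, 0 ∈ V → V.card ≤ k →
    ∃ H : Finset ℕ, 0 ∈ H ∧ (∀ x ∈ V, m ≤ (H.filter (fun h : ℕ => |(h : ℤ) - x| ≤ C)).card) ∧
      (∀ h ∈ H, ∃ x ∈ V, |(h : ℤ) - x| ≤ C) ∧
      ∀ R q : ℕ, 0 < q → Bg 𝒰 B {p : ℕ | p.Prime ∧ q ∣ p + 1 ∧ ∀ t ≤ R, (Pr b (p + 1) t ↔ t ∈ H)} := by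
  classical
  obtain ⟨W₀, hW₀⟩ := hausdorff k
  have h1 : ∀ W : ℕ, ∃ B₀ : ℕ, 1 ≤ W → ∀ (B : ℕ), B₀ ≤ B → ∀ (𝒰 : Ultrafilter ℕ),
      (𝒰 : Filter ℕ) ≤ atTop → ∀ b : ℕ, 2 ≤ b → ClusW (PatO 𝒰 B b) (m + 1) W := by
    intro W
    rcases Nat.eq_zero_or_pos W with h | h
    · exact ⟨0, fun h' => by omega⟩
    · obtain ⟨B₀, hB₀⟩ := clusO (m + 1) W (by omega) h
      exact ⟨B₀, fun _ => hB₀⟩
  choose Bf hBf using h1
  refine ⟨∑ W ∈ range (W₀ + 1), Bf W, fun 𝒰 h𝒰 b hb => ?_⟩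
  set B : ℕ := ∑ W ∈ range (W₀ + 1), Bf W with hB
  obtain ⟨C, hC⟩ := hW₀ (transO h𝒰 B b hb) (m + 1) (fun W hW1 hW2 =>
    hBf W hW1 B (single_le_sum (f := Bf) (fun _ _ => Nat.zero_le _) (mem_range.2 (by omega)))
      𝒰 h𝒰 b hb)
  refine ⟨2 * C, fun V hV0 hVk => ?_⟩
  obtain ⟨H, hH1, hH2, hH3⟩ := hC (V.image fun x : ℕ => (x : ℤ))
    ⟨0, mem_image.2 ⟨0, hV0, rfl⟩⟩ (card_image_le.trans hVk)
  have h0 := hH1 0 (mem_image.2 ⟨0, hV0, rfl⟩)
  obtain ⟨h1, hh1⟩ := card_pos.1 (lt_of_lt_of_le (Nat.succ_pos m) h0)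
  rw [mem_filter] at hh1
  have hne : H.Nonempty := ⟨h1, hh1.1⟩
  obtain ⟨h₀, hh₀⟩ : ∃ h₀, h₀ = H.min' hne := ⟨_, rfl⟩
  have hh₀m : h₀ ∈ H := by rw [hh₀]; exact H.min'_mem hne
  have hmin : ∀ h ∈ H, h₀ ≤ h := by
    intro h hh
    rw [hh₀]
    exact H.min'_le h hh
  have hh₀u : h₀ ≤ C := by
    have h2 := hmin _ hh1.1
    have h3 := (abs_le.1 hh1.2).2
    linarith
  have hh₀l : -(C : ℤ) ≤ h₀ := by
    obtain ⟨x, hx, hxh⟩ := hH2 h₀ hh₀m
    obtain ⟨z, -, rfl⟩ := mem_image.1 hx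
    have h3 := (abs_le.1 hxh).1
    have : (0 : ℤ) ≤ (z : ℤ) := Nat.cast_nonneg z
    linarith
  have hcast : ∀ h ∈ H, (((h - h₀).toNat : ℕ) : ℤ) = h - h₀ := fun h hh =>
    Int.toNat_of_nonneg (by have := hmin h hh; linarith)
  refine ⟨H.image fun h => (h - h₀).toNat, mem_image.2 ⟨h₀, hh₀m, by simp⟩, fun x hx => ?_,
    fun h hh => ?_, fun R q hq => ?_⟩
  · have h2 := hH1 x (mem_image.2 ⟨x, hx, rfl⟩)
    refine (Nat.le_succ m).trans (h2.trans ?_)
    apply card_le_card_of_injOn (fun h => (h - h₀).toNat)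
    · intro h hh
      rw [mem_coe, mem_filter] at hh
      rw [mem_coe, mem_filter]
      refine ⟨mem_image.2 ⟨h, hh.1, rfl⟩, ?_⟩
      simp only
      rw [hcast h hh.1]
      have h3 := abs_le.1 hh.2
      rw [abs_le]
      push_cast
      constructor <;> linarith [h3.1, h3.2]
    · intro h hh h' hh' heq
      rw [mem_coe, mem_filter] at hh hh'
      have e1 := hcast h hh.1
      have e2 := hcast h' hh'.1
      simp only at heq
      rw [heq, e2] at e1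
      linarith
  · obtain ⟨h', hh', rfl⟩ := mem_image.1 hh
    obtain ⟨x, hx, hxh⟩ := hH2 h' hh'
    obtain ⟨z, hz, rfl⟩ := mem_image.1 hx
    refine ⟨z, hz, ?_⟩
    rw [hcast h' hh']
    have h3 := abs_le.1 hxh
    rw [abs_le]
    push_cast
    constructor <;> linarith [h3.1, h3.2]
  · have h2 := hH3 (R + C + 1) q hq
    obtain ⟨j, hj⟩ : ∃ j : ℕ, (j : ℤ) = ((R + C + 1 : ℕ) : ℤ) + h₀ :=
      ⟨(((R + C + 1 : ℕ) : ℤ) + h₀).toNat, Int.toNat_of_nonneg (by push_cast; linarith)⟩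
    have hj1 : 1 ≤ j := by
      push_cast at hj
      omega
    have hbj : 2 ≤ b ^ j := hb.trans (Nat.le_self_pow (by omega) b)
    have hbM : ∀ M : ℕ, 2 * M ≤ b ^ j * M := fun M => Nat.mul_le_mul_right _ hbj
    refine h2.of h𝒰 (E := b ^ j) (fun M => b ^ j * M - 1) 1 ?_ ?_ ?_ ?_
    · intro x hx y hy hxy
      have hx' : 1 ≤ x := hx
      have hy' : 1 ≤ y := hy
      have h3 := hbM x
      have h4 := hbM y
      have h5 : b ^ j * x - 1 = b ^ j * y - 1 := hxy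
      have h6 : b ^ j * x = b ^ j * y := by omega
      exact Nat.eq_of_mul_eq_mul_left (by omega) h6
    · intro n hn
      have := hbM n
      show n ≤ b ^ j * n - 1
      omega
    · intro n _
      exact Nat.sub_le _ _
    · rintro M ⟨h3, h4, h5⟩ _
      have h6 := hbM M
      have h7 : b ^ j * M - 1 + 1 = b ^ j * M := by omega
      have h8 : Pr b M j := by
        have h9 := (h5 h₀ (by
          rw [abs_le]
          push_cast
          constructor <;> linarith [Nat.cast_nonneg (α := ℤ) R])).2 hh₀m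
        rw [← hj, Int.toNat_natCast] at h9
        exact h9
      refine ⟨h8, ?_, fun t ht => ?_⟩
      · rw [h7]
        exact h4.mul_left _
      · have h9 := h5 (h₀ + t) (by
          rw [abs_le]
          push_cast
          have h10 : (t : ℤ) ≤ R := by exact_mod_cast ht
          have h11 : (0 : ℤ) ≤ t := Nat.cast_nonneg t
          constructor <;> linarith)
        rw [h7, Pr_shift]
        have h12 : (((R + C + 1 : ℕ) : ℤ) + (h₀ + t)).toNat = j + t := by omega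
        rw [h12] at h9
        rw [h9, mem_image]
        constructor
        · intro h6
          exact ⟨_, h6, by omega⟩
        · rintro ⟨h, hh, rfl⟩
          rw [hcast h hh]
          have : h₀ + (h - h₀) = h := by ring
          rw [this]
          exact hh

end Pool.Agent.V5helper70.CC
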