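import Mathlib
import Pool.Agent.V5helper70.CC.Orb
import Pool.Agent.W25.TF.Fin

/-!
# Isolated pairs of consecutive primes, at almost all scales of an ultrafilter
-/

set_option autoImplicit false

namespace Pool.Agent.V5helper70.CC

open Finset Filter

/-- from `M` to the prime at time `j ≥ 1` -/
theorem toPrime {𝒰 : Ultrafilter ℕ} (h𝒰 : (𝒰 : Filter ℕ) ≤ atTop) {B b : ℕ} (hb : 2 ≤ b) {j : ℕ}
    (hj : 1 ≤ j) {F G : Set ℕ} (hF : Bg 𝒰 B F)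
    (h : ∀ M ∈ F, 0 < M → ∀ p : ℕ, p + 1 = b ^ j * M → p ∈ G) : Bg 𝒰 B G := by
  have hbj : 2 ≤ b ^ j := hb.trans (Nat.le_self_pow (by omega) b)
  have hbM : ∀ M : ℕ, 2 * M ≤ b ^ j * M := fun M => Nat.mul_le_mul_right _ hbj
  refine hF.of h𝒰 (E := b ^ j) (fun M => b ^ j * M - 1) 1 ?_ ?_ ?_ ?_
  · intro x hx y hy hxy
    have hx' : 1 ≤ x := hx
    have hy' : 1 ≤ y := hy
    have h3 := hbM x
    have h4 := hbM y
    have h5 : b ^ j * x - 1 = b ^ j * y - 1 := hxy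
    have h6 : b ^ j * x = b ^ j * y := by omega
    exact Nat.eq_of_mul_eq_mul_left (by omega) h6
  · intro n hn
    have := hbM n
    show n ≤ b ^ j * n - 1
    omega
  · intro n _
    exact Nat.sub_le _ _
  · intro M hM hM1
    have h3 := hbM M
    refine h M hM hM1 _ ?_
    show b ^ j * M - 1 + 1 = b ^ j * M
    omega

/-- the `j` such that for every `q`, at almost all scales, for many primes `p ≡ -1 (mod q)` the next prime
of the sequence `p + 1 ↦ b ^ t (p + 1) - 1` is at time `j`, no prime at the `R` next times, and `p` is not a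
term at a time `0 < l ≤ R` of the sequence of another prime -/
def GapS (𝒰 : Ultrafilter ℕ) (B b R : ℕ) : Set ℕ := {j | ∀ q : ℕ, 0 < q → Bg 𝒰 B {p : ℕ | p.Prime ∧
  q ∣ p + 1 ∧ Pr b (p + 1) j ∧ (∀ l, 0 < l → l < j → ¬ Pr b (p + 1) l) ∧
  ∀ l, 0 < l → l ≤ R → ¬ Pr b (p + 1) (j + l) ∧ ∀ p' : ℕ, p'.Prime → b ^ l * (p' + 1) - 1 ≠ p}}

theorem consecS {K : ℕ} (hB : Base 4 K) {𝒰 : Ultrafilter ℕ} (h𝒰 : (𝒰 : Filter ℕ) ≤ atTop)
    {b : ℕ} (hb : 2 ≤ b) (R : ℕ) (H₀ : Fin 4 → Fin K → ℕ)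
    (hinj₀ : Function.Injective (fun x : Fin 4 × Fin K => H₀ x.1 x.2)) :
    ∃ g g' i i', g ≠ g' ∧ H₀ g i < H₀ g' i' ∧
      (R + 1) * (H₀ g' i' - H₀ g i) ∈ GapS 𝒰 (4 * K + 2) b R := by
  classical
  obtain ⟨H, hH⟩ : ∃ H : Fin 4 → Fin K → ℕ, ∀ g i, H g i = (R + 1) * (H₀ g i + 1) :=
    ⟨_, fun _ _ => rfl⟩
  have hHlt : ∀ g i g' i', H g i < H g' i' ↔ H₀ g i < H₀ g' i' := by
    intro g i g' i'
    rw [hH, hH]
    constructor
    · intro h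
      have := Nat.lt_of_mul_lt_mul_left h
      omega
    · intro h
      exact Nat.mul_lt_mul_of_pos_left (by omega) (by omega)
  have hinj' : ∀ g i g' i', H g i = H g' i' → g = g' ∧ i = i' := by
    intro g i g' i' h
    have h0 : H₀ g i = H₀ g' i' := by
      rw [hH, hH] at h
      have := Nat.eq_of_mul_eq_mul_left (Nat.succ_pos R) h
      omega
    have := hinj₀ (a₁ := (g, i)) (a₂ := (g', i')) h0
    exact ⟨(Prod.mk.inj this).1, (Prod.mk.inj this).2⟩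
  have hinj : Function.Injective (fun x : Fin 4 × Fin K => H x.1 x.2) := by
    intro x y h
    obtain ⟨h1, h2⟩ := hinj' _ _ _ _ h
    exact Prod.ext h1 h2
  obtain ⟨W, hW⟩ : ∃ W : ℕ, ∀ g i, H g i + R ≤ W :=
    ⟨(univ.sup fun x : Fin 4 × Fin K => H x.1 x.2) + R, fun g i =>
      Nat.add_le_add_right (le_sup (f := fun x : Fin 4 × Fin K => H x.1 x.2) (mem_univ (g, i))) _⟩
  obtain ⟨P, S, c, hP, hS, hSP, hBg⟩ := exactS hB 𝒰 h𝒰 b hb W H hinj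
  have hS2 : 1 < S.card := by
    by_contra hle
    push Not at hle
    have : (S.card : ℝ) ≤ 1 := by exact_mod_cast hle
    norm_num at hS
    linarith
  -- two elements of the pattern with different labels
  obtain ⟨g₁, g₂, i₁, i₂, h12, hP1, hP2, hlt⟩ : ∃ g₁ g₂ i₁ i₂, g₁ ≠ g₂ ∧ H g₁ i₁ ∈ P ∧ H g₂ i₂ ∈ P ∧
      H g₁ i₁ < H g₂ i₂ := by
    obtain ⟨g₁, hg₁, g₂, hg₂, hg12⟩ := one_lt_card.1 hS2
    rcases lt_trichotomy (H g₁ (c g₁)) (H g₂ (c g₂)) with hl | he | hl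
    · exact ⟨g₁, g₂, _, _, hg12, hSP _ hg₁, hSP _ hg₂, hl⟩
    · exact absurd (hinj' _ _ _ _ he).1 hg12
    · exact ⟨g₂, g₁, _, _, hg12.symm, hSP _ hg₂, hSP _ hg₁, hl⟩
  set A : Finset (Fin K) := univ.filter fun i => H g₁ i ∈ P ∧ H g₁ i < H g₂ i₂ with hA
  obtain ⟨i, hiA, hi⟩ := exists_max_image A (fun i => H g₁ i) ⟨i₁, by
    rw [hA, mem_filter]; exact ⟨mem_univ _, hP1, hlt⟩⟩
  rw [hA, mem_filter] at hiA
  set C : Finset ℕ := P.filter fun t => H g₁ i < t with hC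
  obtain ⟨t₂, ht₂C, ht₂⟩ := exists_min_image C id ⟨H g₂ i₂, by
    rw [hC, mem_filter]; exact ⟨hP2, hiA.2.2⟩⟩
  rw [hC, mem_filter] at ht₂C
  obtain ⟨g', i', rfl⟩ := hP t₂ ht₂C.1
  have hmin : ∀ t ∈ P, H g₁ i < t → H g' i' ≤ t := fun t ht h =>
    ht₂ t (by rw [hC, mem_filter]; exact ⟨ht, h⟩)
  have hne : g₁ ≠ g' := by
    intro heq
    subst heq
    have h1 : H g₁ i' ≤ H g₂ i₂ := hmin _ hP2 hiA.2.2
    rcases h1.lt_or_eq with h2 | h2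
    · have h3 : H g₁ i' ≤ H g₁ i := hi i' (by
        rw [hA, mem_filter]; exact ⟨mem_univ _, ht₂C.1, h2⟩)
      exact absurd ht₂C.2 (not_lt.2 h3)
    · exact h12 (hinj' _ _ _ _ h2).1
  refine ⟨g₁, g', i, i', hne, (hHlt _ _ _ _).1 ht₂C.2, fun q hq => ?_⟩
  have hd : (R + 1) * (H₀ g' i' - H₀ g₁ i) = H g' i' - H g₁ i := by
    rw [hH, hH, ← Nat.mul_sub]
    congr 1
    omega
  rw [hd]
  have hlt' := ht₂C.2
  have hPmul : ∀ t ∈ P, R + 1 ∣ t := by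
    intro t ht
    obtain ⟨g, i, rfl⟩ := hP t ht
    rw [hH]
    exact dvd_mul_right _ _
  have hnot : ∀ t l : ℕ, R + 1 ∣ t → 0 < l → l ≤ R → ¬ R + 1 ∣ t + l := by
    intro t l ht hl0 hl1 h
    have := (Nat.dvd_add_right ht).1 h
    have := Nat.le_of_dvd hl0 this
    omega
  have hj1 : R + 1 ≤ H g₁ i := by
    rw [hH]
    exact Nat.le_mul_of_pos_right _ (Nat.succ_pos _)
  refine toPrime h𝒰 hb (by omega : 1 ≤ H g₁ i) (hBg q hq) ?_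
  rintro M ⟨h0, h1, h2⟩ _ p hp
  have hW1 := hW g₁ i
  have hW2 := hW g' i'
  have hpr : ∀ l, Pr b (p + 1) l ↔ Pr b M (H g₁ i + l) := fun l => by rw [hp, Pr_shift]
  refine ⟨?_, ?_, ?_, ?_, ?_⟩
  · have h3 : Pr b M (H g₁ i) := (h2 _ (by omega)).2 hiA.2.1
    unfold Pr at h3
    have : b ^ H g₁ i * M - 1 = p := by omega
    rwa [this] at h3
  · rw [hp]
    exact h1.mul_left _
  · rw [hpr]
    have e1 : H g₁ i + (H g' i' - H g₁ i) = H g' i' := by omega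
    rw [e1]
    exact (h2 _ (by omega)).2 ht₂C.1
  · intro l hl0 hl1 hl
    rw [hpr] at hl
    have h3 := (h2 _ (by omega)).1 hl
    have h4 := hmin _ h3 (by omega)
    omega
  · intro l hl0 hl1
    refine ⟨fun hl => ?_, fun p' hp' h => ?_⟩
    · rw [hpr] at hl
      have e1 : H g₁ i + (H g' i' - H g₁ i + l) = H g' i' + l := by omega
      rw [e1] at hl
      have h3 := (h2 _ (by omega)).1 hl
      exact hnot _ _ (hPmul _ ht₂C.1) hl0 hl1 (hPmul _ h3)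
    · -- `p' + 1 = b ^ (t - l) M`
      have hbl : 1 ≤ b ^ l := Nat.one_le_pow _ _ (by omega)
      have h3 : b ^ l * (p' + 1) = b ^ H g₁ i * M := by
        have : 1 ≤ b ^ l * (p' + 1) := Nat.mul_pos (by omega) (Nat.succ_pos _)
        omega
      have h4 : b ^ H g₁ i * M = b ^ l * (b ^ (H g₁ i - l) * M) := by
        rw [← mul_assoc, ← pow_add]
        congr 2
        omega
      rw [h4] at h3
      have h5 := Nat.eq_of_mul_eq_mul_left (by omega : 0 < b ^ l) h3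
      have h6 : Pr b M (H g₁ i - l) := by
        unfold Pr
        rw [← h5]
        simpa using hp'
      have h7 := (h2 _ (by omega)).1 h6
      refine hnot (H g₁ i - l) l (hPmul _ h7) hl0 hl1 ?_
      have e1 : H g₁ i - l + l = H g₁ i := by omega
      rw [e1]
      exact hPmul _ hiA.2.1

/-- one half of the multiples -/
theorem half {K : ℕ} (hK : 1 ≤ K) (hB : Base 4 K) {𝒰 : Ultrafilter ℕ}
    (h𝒰 : (𝒰 : Filter ℕ) ≤ atTop) {b : ℕ} (hb : 2 ≤ b) (R : ℕ) (ε : ℝ) (hε : 0 < ε) :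
    ∃ M : ℕ, 0 < M ∧ ∀ N : ℕ, 0 < N → M ∣ N → ∃ L : ℕ, ∀ T : ℕ, L ≤ T → ∀ u : ℕ,
      (1 / 2 - ε) * T ≤ ({k : ℕ | u < k ∧ k ≤ u + T ∧ N * k ∈ GapS 𝒰 (4 * K + 2) b R}.ncard : ℝ) := by
  obtain ⟨S₀, hS₀⟩ : ∃ S₀ : Set ℕ, S₀ = GapS 𝒰 (4 * K + 2) b R := ⟨_, rfl⟩
  rw [← hS₀]
  obtain ⟨G, hG⟩ : ∃ G : Set ℕ, ∀ i, i ∈ G ↔ (R + 1) * i ∈ S₀ :=
    ⟨{i : ℕ | (R + 1) * i ∈ S₀}, fun i => Iff.rfl⟩
  have hcl : ∀ H : Fin 4 → Fin K → ℕ, Pool.Agent.H947R3.GM.AdmN 1 H →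
      ∃ g g' i i', g ≠ g' ∧ H g i < H g' i' ∧ H g' i' - H g i ∈ G := by
    intro H hH
    obtain ⟨g, g', i, i', h1, h2, h3⟩ := consecS hB h𝒰 hb R H hH.1
    exact ⟨g, g', i, i', h1, h2, (hG _).2 (hS₀ ▸ h3)⟩
  obtain ⟨M, hM, h⟩ := Pool.Agent.W25.TF.tf4 Pool.Agent.W25.TF.s_maiF4 G 1 ⟨K, hK, hcl⟩ ε hε
  refine ⟨(R + 1) * M, Nat.mul_pos (Nat.succ_pos _) hM, fun N hN hdv => ?_⟩
  obtain ⟨t, rfl⟩ := hdv
  have ht : 0 < t := Nat.pos_of_ne_zero (by rintro rfl; simp at hN)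
  obtain ⟨L, hL⟩ := h (M * t) (Nat.mul_pos hM ht) (dvd_mul_right _ _)
  refine ⟨L, fun T hT u => (hL T hT u).trans ?_⟩
  rw [Nat.cast_le]
  refine Set.ncard_le_ncard ?_ ((Set.finite_Ioc u (u + T)).subset fun k hk => ⟨hk.1, hk.2.1⟩)
  rintro k ⟨hk1, hk2, hk3⟩
  refine ⟨hk1, hk2, ?_⟩
  have e1 : (R + 1) * M * t * k = (R + 1) * (M * t * k) := by ring
  rw [e1]
  exact (hG _).1 hk3

end Pool.Agent.V5helper70.CC
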