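import Mathlib
import Pool.Agent.V5helper70.CC.Gap

/-!
# From ultrafilters to infinite sets of scales
-/

set_option autoImplicit false

namespace Pool.Agent.V5helper70.CC

open Finset Filter

theorem infinite_of_mem {𝒰 : Ultrafilter ℕ} (h𝒰 : (𝒰 : Filter ℕ) ≤ atTop) {A : Set ℕ} (hA : A ∈ 𝒰) :
    ∀ m : ℕ, ∃ x ∈ A, m < x := by
  intro m
  have h1 : ∀ᶠ N : ℕ in (𝒰 : Filter ℕ), m < N := h𝒰 (eventually_gt_atTop m)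
  have h2 : ∀ᶠ N : ℕ in (𝒰 : Filter ℕ), N ∈ A := hA
  obtain ⟨x, h3, h4⟩ := (h2.and h1).exists
  exact ⟨x, h3, h4⟩

/-- an infinite set of scales along which countably many properties hold eventually -/
theorem pseudo {ι : Type*} [Countable ι] [Nonempty ι] {𝒰 : Ultrafilter ℕ}
    (h𝒰 : (𝒰 : Filter ℕ) ≤ atTop)
    (P : ι → ℕ → Prop) (hP : ∀ i, ∀ᶠ N : ℕ in (𝒰 : Filter ℕ), P i N) {𝒩 : Set ℕ} (h𝒩 : 𝒩 ∈ 𝒰) :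
    ∃ 𝒩' : Set ℕ, 𝒩' ⊆ 𝒩 ∧ 𝒩'.Infinite ∧ ∀ i, ∀ᶠ N : ℕ in atTop, N ∈ 𝒩' → P i N := by
  obtain ⟨e, he⟩ := exists_surjective_nat ι
  have hB : ∀ j : ℕ, ∀ m : ℕ, ∃ x, m < x ∧ x ∈ 𝒩 ∧ ∀ i ≤ j, P (e i) x := by
    intro j m
    have h1 : ∀ᶠ N : ℕ in (𝒰 : Filter ℕ), ∀ i ≤ j, P (e i) N := by
      have := (eventually_all_finite (Set.finite_Iic j)).2 (fun i _ => hP (e i))
      exact this
    have h2 : ∀ᶠ N : ℕ in (𝒰 : Filter ℕ), N ∈ 𝒩 := h𝒩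
    have h3 : ∀ᶠ N : ℕ in (𝒰 : Filter ℕ), m < N := h𝒰 (eventually_gt_atTop m)
    obtain ⟨x, ⟨h4, h5⟩, h6⟩ := ((h1.and h2).and h3).exists
    exact ⟨x, h6, h5, h4⟩
  choose f hf1 hf2 hf3 using hB
  obtain ⟨n, hn0, hns⟩ : ∃ n : ℕ → ℕ, n 0 = f 0 0 ∧ ∀ j, n (j + 1) = f (j + 1) (n j) :=
    ⟨fun j => Nat.rec (f 0 0) (fun j g => f (j + 1) g) j, rfl, fun _ => rfl⟩
  have hmono : StrictMono n := strictMono_nat_of_lt_succ fun j => by rw [hns]; exact hf1 _ _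
  have hn : ∀ j, n j ∈ 𝒩 ∧ ∀ i ≤ j, P (e i) (n j) := by
    intro j
    cases j with
    | zero => rw [hn0]; exact ⟨hf2 _ _, hf3 _ _⟩
    | succ j => rw [hns]; exact ⟨hf2 _ _, hf3 _ _⟩
  refine ⟨Set.range n, ?_, Set.infinite_range_of_injective hmono.injective, fun i => ?_⟩
  · rintro _ ⟨j, rfl⟩
    exact (hn j).1
  · obtain ⟨i₀, rfl⟩ := he i
    filter_upwards [eventually_ge_atTop (n i₀)] with N hN
    rintro ⟨j, rfl⟩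
    exact (hn j).2 i₀ (hmono.le_iff_le.1 hN)

/-- an ultrafilter of scales in a given infinite set -/
theorem exists_ultra {𝒩 : Set ℕ} (h : 𝒩.Infinite) :
    ∃ 𝒰 : Ultrafilter ℕ, (𝒰 : Filter ℕ) ≤ atTop ∧ 𝒩 ∈ 𝒰 := by
  have h1 : ∃ᶠ n : ℕ in atTop, n ∈ 𝒩 := Nat.frequently_atTop_iff_infinite.2 h
  have h2 : (atTop ⊓ 𝓟 𝒩 : Filter ℕ).NeBot := frequently_mem_iff_neBot.1 h1
  refine ⟨Ultrafilter.of (atTop ⊓ 𝓟 𝒩), (Ultrafilter.of_le _).trans inf_le_left, ?_⟩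
  exact (Ultrafilter.of_le _).trans inf_le_right (mem_principal_self _)

/-- the counting form -/
theorem Bg.log {𝒰 : Ultrafilter ℕ} (h𝒰 : (𝒰 : Filter ℕ) ≤ atTop) {B : ℕ} {F : Set ℕ}
    (hF : Bg 𝒰 B F) : ∃ D : ℕ, ∀ᶠ N : ℕ in (𝒰 : Filter ℕ),
      (N : ℝ) / (Real.log N) ^ (B + 1) ≤ ({n : ℕ | n ∈ F ∧ N ≤ n ∧ n ≤ D * N}.ncard : ℝ) := by
  obtain ⟨D, hD⟩ := hF
  refine ⟨D, ?_⟩
  have h1 : ∀ᶠ N : ℕ in (𝒰 : Filter ℕ), 3 ≤ N := h𝒰 (eventually_ge_atTop _)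
  have h2 : ∀ᶠ N : ℕ in (𝒰 : Filter ℕ), (D : ℝ) ≤ Real.log N :=
    h𝒰 ((Real.tendsto_log_atTop.comp tendsto_natCast_atTop_atTop).eventually_ge_atTop _)
  filter_upwards [hD, h1, h2] with N hN hN3 hND
  have hlog : 0 < Real.log N := Real.log_pos (by exact_mod_cast (by omega : 1 < N))
  rw [div_le_iff₀ (by positivity)]
  refine hN.trans ?_
  rw [pow_succ]
  have h3 : (0 : ℝ) ≤ ({n : ℕ | n ∈ F ∧ N ≤ n ∧ n ≤ D * N}.ncard : ℝ) := Nat.cast_nonneg _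
  calc (D : ℝ) * (Real.log N) ^ B * ({n : ℕ | n ∈ F ∧ N ≤ n ∧ n ≤ D * N}.ncard : ℝ)
      ≤ Real.log N * (Real.log N) ^ B * ({n : ℕ | n ∈ F ∧ N ≤ n ∧ n ≤ D * N}.ncard : ℝ) := by
        gcongr
    _ = _ := by ring

end Pool.Agent.V5helper70.CC
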